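import Mathlib

/-!
The integral representation `∫_0^∞ s^2 / (s^2 + u^2) du = π s / 2` for `0 < Re s`.
-/

set_option autoImplicit false

open Finset MeasureTheory Set Filter Topology

namespace Pool.Agent.MP_fe2d2a_anEC

lemma lin_bound (σ ω v : ℝ) :
    σ ^ 2 * (1 + v ^ 2) ≤ (1 + (σ ^ 2 + ω ^ 2)) * (σ ^ 2 + (ω + v) ^ 2) := by
  have : (1 + (σ ^ 2 + ω ^ 2)) * (σ ^ 2 + (ω + v) ^ 2) - σ ^ 2 * (1 + v ^ 2)
      = (σ ^ 2 + (ω + v) * ω) ^ 2 + (ω + v) ^ 2 := by ring
  nlinarith [sq_nonneg (σ ^ 2 + (ω + v) * ω), sq_nonneg (ω + v)]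

lemma norm_bound (s : ℂ) (u : ℝ) :
    s.re ^ 2 * (1 + u ^ 2) ≤ (1 + (s.re ^ 2 + s.im ^ 2)) * ‖s ^ 2 + (u : ℂ) ^ 2‖ := by
  apply le_of_sq_le_sq _ (by positivity)
  have e : ((1 + (s.re ^ 2 + s.im ^ 2)) * ‖s ^ 2 + (u : ℂ) ^ 2‖) ^ 2
      = ((1 + (s.re ^ 2 + s.im ^ 2)) * (s.re ^ 2 + (s.im + u) ^ 2)) *
        ((1 + (s.re ^ 2 + s.im ^ 2)) * (s.re ^ 2 + (s.im + (-u)) ^ 2)) := by
    rw [mul_pow, ← Complex.normSq_eq_norm_sq, Complex.normSq_apply]
    simp only [Complex.add_re, Complex.add_im, pow_two, Complex.mul_re, Complex.mul_im,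
      Complex.ofReal_re, Complex.ofReal_im]
    ring
  rw [e, pow_two]
  have h1 := lin_bound s.re s.im u
  have h2 := lin_bound s.re s.im (-u)
  rw [neg_sq] at h2
  exact mul_le_mul h1 h2 (by positivity) (by positivity)

lemma ne_zero_of_re_pos {s : ℂ} (hs : 0 < s.re) (u : ℝ) : s ^ 2 + (u : ℂ) ^ 2 ≠ 0 := by
  intro h
  have := norm_bound s u
  rw [h, norm_zero, mul_zero] at this
  have h2 : 0 < s.re ^ 2 * (1 + u ^ 2) := by positivity
  linarith

lemma sqrt_integrable {s : ℂ} (hs : 0 < s.re) :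
    IntegrableOn (fun u : ℝ => s ^ 2 / (s ^ 2 + (u : ℂ) ^ 2)) (Ioi 0) := by
  have hcont : Continuous (fun u : ℝ => s ^ 2 / (s ^ 2 + (u : ℂ) ^ 2)) := by
    apply Continuous.div continuous_const
    · exact continuous_const.add (Complex.continuous_ofReal.pow 2)
    · intro u
      exact ne_zero_of_re_pos hs u
  apply Integrable.integrableOn
  have hb : Integrable (fun u : ℝ =>
      (‖s ^ 2‖ * (1 + (s.re ^ 2 + s.im ^ 2)) / s.re ^ 2) * (1 + u ^ 2)⁻¹) :=
    integrable_inv_one_add_sq.const_mul _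
  apply Integrable.mono' hb hcont.aestronglyMeasurable
  apply Filter.Eventually.of_forall
  intro u
  rw [norm_div]
  have h := norm_bound s u
  have hp : 0 < ‖s ^ 2 + (u : ℂ) ^ 2‖ := norm_pos_iff.2 (ne_zero_of_re_pos hs u)
  have h2 : 0 < s.re ^ 2 := by positivity
  have h3 : 0 < 1 + u ^ 2 := by positivity
  rw [div_le_iff₀ hp]
  have e : ‖s ^ 2‖ * (1 + (s.re ^ 2 + s.im ^ 2)) / s.re ^ 2 * (1 + u ^ 2)⁻¹ *
      ‖s ^ 2 + (u : ℂ) ^ 2‖ =
      ‖s ^ 2‖ * (((1 + (s.re ^ 2 + s.im ^ 2)) * ‖s ^ 2 + (u : ℂ) ^ 2‖) /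
        (s.re ^ 2 * (1 + u ^ 2))) := by
    field_simp
  rw [e]
  have h4 : 1 ≤ ((1 + (s.re ^ 2 + s.im ^ 2)) * ‖s ^ 2 + (u : ℂ) ^ 2‖) /
        (s.re ^ 2 * (1 + u ^ 2)) := by
    rw [le_div_iff₀ (by positivity)]
    linarith
  calc ‖s ^ 2‖ = ‖s ^ 2‖ * 1 := (mul_one _).symm
    _ ≤ _ := mul_le_mul_of_nonneg_left h4 (norm_nonneg _)

lemma sqrt_tendsto {s : ℂ} (hs : 0 < s.re) :
    Tendsto (fun u : ℝ => s / (2 * Complex.I) *
      (Complex.log (s + (u : ℂ) * Complex.I) - Complex.log (s - (u : ℂ) * Complex.I)))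
      atTop (𝓝 ((Real.pi : ℂ) / 2 * s)) := by
  have e : ∀ᶠ u : ℝ in atTop,
      s / (2 * Complex.I) * (Complex.log (s / (u : ℂ) + Complex.I) -
        Complex.log (s / (u : ℂ) - Complex.I)) =
      s / (2 * Complex.I) *
      (Complex.log (s + (u : ℂ) * Complex.I) - Complex.log (s - (u : ℂ) * Complex.I)) := by
    filter_upwards [eventually_gt_atTop 0] with u hu
    have hu' : (u : ℂ) ≠ 0 := by exact_mod_cast hu.ne'
    have e1 : s + (u : ℂ) * Complex.I = (u : ℂ) * (s / (u : ℂ) + Complex.I) := by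
      field_simp
    have e2 : s - (u : ℂ) * Complex.I = (u : ℂ) * (s / (u : ℂ) - Complex.I) := by
      field_simp
    have hre : (s / (u : ℂ)).re = s.re / u := by
      rw [Complex.div_ofReal_re]
    have n1 : s / (u : ℂ) + Complex.I ≠ 0 := by
      intro h
      have := congrArg Complex.re h
      rw [Complex.add_re, hre, Complex.I_re, Complex.zero_re, add_zero] at this
      have h2 : 0 < s.re / u := by positivity
      linarith
    have n2 : s / (u : ℂ) - Complex.I ≠ 0 := by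
      intro h
      have := congrArg Complex.re h
      rw [Complex.sub_re, hre, Complex.I_re, Complex.zero_re, sub_zero] at this
      have h2 : 0 < s.re / u := by positivity
      linarith
    rw [e1, e2, Complex.log_ofReal_mul hu n1, Complex.log_ofReal_mul hu n2]
    ring
  refine Tendsto.congr' e ?_
  have hz : Tendsto (fun u : ℝ => s / (u : ℂ)) atTop (𝓝 0) := by
    have h1 : Tendsto (fun u : ℝ => ((u⁻¹ : ℝ) : ℂ)) atTop (𝓝 ((0 : ℝ) : ℂ)) :=
      (Complex.continuous_ofReal.tendsto 0).comp tendsto_inv_atTop_zero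
    have h2 := h1.const_mul s
    rw [Complex.ofReal_zero, mul_zero] at h2
    refine h2.congr (fun u => ?_)
    rw [Complex.ofReal_inv, div_eq_mul_inv]
  have s1 : Complex.I ∈ Complex.slitPlane := by
    rw [Complex.mem_slitPlane_iff]
    right
    rw [Complex.I_im]
    norm_num
  have s2 : -Complex.I ∈ Complex.slitPlane := by
    rw [Complex.mem_slitPlane_iff]
    right
    rw [Complex.neg_im, Complex.I_im]
    norm_num
  have t1 : Tendsto (fun u : ℝ => Complex.log (s / (u : ℂ) + Complex.I)) atTop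
      (𝓝 (Complex.log Complex.I)) := by
    have h1 : Tendsto (fun u : ℝ => s / (u : ℂ) + Complex.I) atTop (𝓝 Complex.I) := by
      have := hz.add_const Complex.I
      rwa [zero_add] at this
    exact h1.clog s1
  have t2 : Tendsto (fun u : ℝ => Complex.log (s / (u : ℂ) - Complex.I)) atTop
      (𝓝 (Complex.log (-Complex.I))) := by
    have h1 : Tendsto (fun u : ℝ => s / (u : ℂ) - Complex.I) atTop (𝓝 (-Complex.I)) := by
      have := hz.sub_const Complex.I
      rwa [zero_sub] at this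
    exact h1.clog s2
  have t3 := (t1.sub t2).const_mul (s / (2 * Complex.I))
  rw [Complex.log_I, Complex.log_neg_I] at t3
  have e3 : s / (2 * Complex.I) * ((Real.pi : ℂ) / 2 * Complex.I -
      -((Real.pi : ℂ) / 2) * Complex.I) = (Real.pi : ℂ) / 2 * s := by
    have hI := Complex.I_ne_zero
    field_simp
    ring
  rw [← e3]
  exact t3

lemma sqrt_integral {s : ℂ} (hs : 0 < s.re) :
    ∫ u in Ioi (0 : ℝ), s ^ 2 / (s ^ 2 + (u : ℂ) ^ 2) = (Real.pi : ℂ) / 2 * s := by
  have hd : ∀ u ∈ Ici (0 : ℝ), HasDerivAt (fun u : ℝ => s / (2 * Complex.I) *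
      (Complex.log (s + (u : ℂ) * Complex.I) - Complex.log (s - (u : ℂ) * Complex.I)))
      (s ^ 2 / (s ^ 2 + (u : ℂ) ^ 2)) u := by
    intro u _
    have sl1 : s + (u : ℂ) * Complex.I ∈ Complex.slitPlane := by
      rw [Complex.mem_slitPlane_iff]
      left
      simp [hs]
    have sl2 : s - (u : ℂ) * Complex.I ∈ Complex.slitPlane := by
      rw [Complex.mem_slitPlane_iff]
      left
      simp [hs]
    have hu : HasDerivAt (fun u : ℝ => (u : ℂ)) 1 u := Complex.ofRealCLM.hasDerivAt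
    have d1 : HasDerivAt (fun u : ℝ => s + (u : ℂ) * Complex.I) (1 * Complex.I) u :=
      (hu.mul_const Complex.I).const_add s
    have d2 : HasDerivAt (fun u : ℝ => s - (u : ℂ) * Complex.I) (-(1 * Complex.I)) u :=
      (hu.mul_const Complex.I).const_sub s
    have c1 := d1.clog_real sl1
    have c2 := d2.clog_real sl2
    have c3 := (c1.sub c2).const_mul (s / (2 * Complex.I))
    have hval : s / (2 * Complex.I) * (1 * Complex.I / (s + (u : ℂ) * Complex.I) -
        -(1 * Complex.I) / (s - (u : ℂ) * Complex.I)) = s ^ 2 / (s ^ 2 + (u : ℂ) ^ 2) := by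
      have hI := Complex.I_ne_zero
      have n1 : s + (u : ℂ) * Complex.I ≠ 0 := Complex.slitPlane_ne_zero sl1
      have n2 : s - (u : ℂ) * Complex.I ≠ 0 := Complex.slitPlane_ne_zero sl2
      have n3 := ne_zero_of_re_pos hs u
      have hI2 : Complex.I ^ 2 = -1 := Complex.I_sq
      have hprod : (s + (u : ℂ) * Complex.I) * (s - (u : ℂ) * Complex.I)
          = s ^ 2 + (u : ℂ) ^ 2 := by
        linear_combination (-(u : ℂ) ^ 2) * hI2
      rw [← hprod]
      have hsum : (s + (u : ℂ) * Complex.I) + (s - (u : ℂ) * Complex.I) = 2 * s := by ring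
      generalize s + (u : ℂ) * Complex.I = A at n1 hsum ⊢
      generalize s - (u : ℂ) * Complex.I = B at n2 hsum ⊢
      field_simp
      linear_combination s * hsum
    rw [hval] at c3
    exact c3
  have h := integral_Ioi_of_hasDerivAt_of_tendsto' hd (sqrt_integrable hs) (sqrt_tendsto hs)
  rw [h]
  simp

/-- A positive integrand has a positive integral. -/
lemma integral_pos_real {f : ℝ → ℂ} (hf : IntegrableOn f (Ioi 0))
    (hpos : ∀ u ∈ Ioi (0 : ℝ), (f u).im = 0 ∧ 0 < (f u).re) :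
    (∫ u in Ioi (0 : ℝ), f u).im = 0 ∧ 0 < (∫ u in Ioi (0 : ℝ), f u).re := by
  constructor
  · have h1 : (∫ u in Ioi (0 : ℝ), f u).im = ∫ u in Ioi (0 : ℝ), (f u).im :=
      (Complex.imCLM.integral_comp_comm hf).symm
    rw [h1]
    rw [setIntegral_congr_fun measurableSet_Ioi (fun u hu => (hpos u hu).1)]
    simp
  · have h1 : (∫ u in Ioi (0 : ℝ), f u).re = ∫ u in Ioi (0 : ℝ), (f u).re :=
      (Complex.reCLM.integral_comp_comm hf).symm
    rw [h1]
    rw [setIntegral_pos_iff_support_of_nonneg_ae]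
    · have hsub : Ioi (0 : ℝ) ⊆ Function.support (fun u => (f u).re) ∩ Ioi 0 := by
        intro u hu
        exact ⟨(hpos u hu).2.ne', hu⟩
      refine lt_of_lt_of_le ?_ (measure_mono hsub)
      rw [Real.volume_Ioi]
      exact ENNReal.zero_lt_top
    · filter_upwards [ae_restrict_mem measurableSet_Ioi] with u hu
      exact (hpos u hu).2.le
    · exact Complex.reCLM.integrable_comp hf

end Pool.Agent.MP_fe2d2a_anEC
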