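import Mathlib

/-!
Two elementary inequalities for nonnegative weights.
-/

set_option autoImplicit false

open Finset

namespace Pool.Agent.MP_fe2d2a_anEC

lemma sum_split (n c : ℕ) (hc : c ≤ n) (f : ℕ → ℝ) :
    ∑ i ∈ range (n + 1), f i = ∑ i ∈ range (c + 1), f i + ∑ i ∈ Ico c n, f (i + 1) := by
  rw [← Finset.sum_range_add_sum_Ico f (show c + 1 ≤ n + 1 by omega)]
  rw [Finset.sum_Ico_add' f c n 1]

/-- First inequality: the weights have mean `θ`. -/
lemma weights_one (n c : ℕ) (hc : c < n) (w : ℕ → ℝ) (hw : ∀ i, 0 ≤ w i) (h0 : 0 < w 0)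
    (hn : 0 < w n) (θ : ℝ)
    (hθ : θ * ∑ i ∈ range (n + 1), w i = ∑ i ∈ range (n + 1), (i : ℝ) * w i) :
    0 < ∑ i ∈ Ico c n, (((i : ℝ) + 1) - θ) * w (i + 1) := by
  have key : ∑ i ∈ range (n + 1), ((i : ℝ) - θ) * w i = 0 := by
    simp only [sub_mul, Finset.sum_sub_distrib, ← Finset.mul_sum]
    linarith
  rw [sum_split n c hc.le] at key
  by_cases h : θ ≤ c
  · apply Finset.sum_pos'
    · intro i hi
      have hi' := (Finset.mem_Ico.1 hi).1
      have : (c : ℝ) ≤ i := by exact_mod_cast hi'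
      exact mul_nonneg (by linarith) (hw _)
    · refine ⟨n - 1, Finset.mem_Ico.2 ⟨by omega, by omega⟩, ?_⟩
      have e : n - 1 + 1 = n := by omega
      have e2 : (((n - 1 : ℕ) : ℝ) + 1) = n := by exact_mod_cast e
      rw [e, e2]
      have : (c : ℝ) < n := by exact_mod_cast hc
      exact mul_pos (by linarith) hn
  · push Not at h
    have hneg : ∑ i ∈ range (c + 1), ((i : ℝ) - θ) * w i < 0 := by
      have : 0 < ∑ i ∈ range (c + 1), (θ - (i : ℝ)) * w i := by
        apply Finset.sum_pos'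
        · intro i hi
          have hi' := Finset.mem_range.1 hi
          have : (i : ℝ) ≤ c := by exact_mod_cast (by omega : i ≤ c)
          exact mul_nonneg (by linarith) (hw _)
        · refine ⟨0, Finset.mem_range.2 (by omega), ?_⟩
          have : (0 : ℝ) ≤ c := Nat.cast_nonneg c
          apply mul_pos _ h0
          push_cast
          linarith
      have e : ∑ i ∈ range (c + 1), ((i : ℝ) - θ) * w i
          = - ∑ i ∈ range (c + 1), (θ - (i : ℝ)) * w i := by
        rw [← Finset.sum_neg_distrib]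
        apply Finset.sum_congr rfl
        intro i _
        ring
      rw [e]
      linarith
    have e3 : ∑ i ∈ Ico c n, (((i + 1 : ℕ) : ℝ) - θ) * w (i + 1)
        = ∑ i ∈ Ico c n, (((i : ℝ) + 1) - θ) * w (i + 1) := by
      apply Finset.sum_congr rfl
      intro i _
      push_cast
      ring
    rw [e3] at key
    linarith

/-- Second inequality. -/
lemma weights_two (n c : ℕ) (hc : c + 1 < n) (w q : ℕ → ℝ) (hw : ∀ i, 0 ≤ w i)
    (hn : 0 < w n) (hq : ∀ i, 0 ≤ q i) (hq0 : 0 < q 0) (θ κ : ℝ)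
    (hθ : θ * ∑ i ∈ range (n + 1), w i = ∑ i ∈ range (n + 1), (i : ℝ) * w i)
    (hκ : κ * ∑ i ∈ range (n + 1), w i = ∑ i ∈ range (n + 1), q i) :
    0 < ∑ j ∈ Ico c n, ((((j : ℝ) + 1) - θ) * q (j + 1) +
        ∑ i ∈ Ico (j + 1) n, (κ * w (i + 1) - q (i + 1))) := by
  have hW : 0 < ∑ i ∈ range (n + 1), w i :=
    Finset.sum_pos' (fun i _ => hw i) ⟨n, Finset.mem_range.2 (by omega), hn⟩
  have hQ : 0 < ∑ i ∈ range (n + 1), q i :=
    Finset.sum_pos' (fun i _ => hq i) ⟨0, Finset.mem_range.2 (by omega), hq0⟩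
  have hκ0 : 0 < κ := by
    by_contra h
    push Not at h
    have := mul_nonpos_of_nonpos_of_nonneg h hW.le
    linarith
  set W := ∑ i ∈ range (n + 1), w i with hWdef
  set Q := ∑ i ∈ range (n + 1), q i with hQdef
  set S1 := ∑ i ∈ Ico c n, q (i + 1) with hS1
  set S2 := ∑ i ∈ Ico c n, ((i : ℝ) - c) * w (i + 1) with hS2
  have e : ∑ j ∈ Ico c n, ((((j : ℝ) + 1) - θ) * q (j + 1) +
        ∑ i ∈ Ico (j + 1) n, (κ * w (i + 1) - q (i + 1)))
      = ((c : ℝ) + 1 - θ) * S1 + κ * S2 := by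
    rw [Finset.sum_add_distrib, Finset.sum_Ico_Ico_comm' c n
      (fun _ i => κ * w (i + 1) - q (i + 1))]
    rw [hS1, hS2, Finset.mul_sum, Finset.mul_sum, ← Finset.sum_add_distrib,
      ← Finset.sum_add_distrib]
    apply Finset.sum_congr rfl
    intro i hi
    have hi' := (Finset.mem_Ico.1 hi).1
    rw [Finset.sum_const, Nat.card_Ico, nsmul_eq_mul, Nat.cast_sub hi']
    ring
  rw [e]
  have hS1n : 0 ≤ S1 := Finset.sum_nonneg (fun i _ => hq _)
  have hS1Q : S1 < Q := by
    rw [hQdef, sum_split n c (by omega)]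
    have : 0 < ∑ i ∈ range (c + 1), q i :=
      Finset.sum_pos' (fun i _ => hq i) ⟨0, Finset.mem_range.2 (by omega), hq0⟩
    linarith
  have hS2p : 0 < S2 := by
    apply Finset.sum_pos'
    · intro i hi
      have hi' := (Finset.mem_Ico.1 hi).1
      have : (c : ℝ) ≤ i := by exact_mod_cast hi'
      exact mul_nonneg (by linarith) (hw _)
    · refine ⟨n - 1, Finset.mem_Ico.2 ⟨by omega, by omega⟩, ?_⟩
      have e1 : n - 1 + 1 = n := by omega
      rw [e1]
      have : (c : ℝ) < ((n - 1 : ℕ) : ℝ) := by exact_mod_cast (by omega : c < n - 1)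
      exact mul_pos (by linarith) hn
  by_cases h : θ ≤ c + 1
  · have h1 : 0 ≤ ((c : ℝ) + 1 - θ) * S1 := mul_nonneg (by linarith) hS1n
    have h2 : 0 < κ * S2 := mul_pos hκ0 hS2p
    linarith
  · push Not at h
    have hA : (θ - c - 1) * W ≤ S2 := by
      have key : ∑ i ∈ range (n + 1), ((i : ℝ) - (c + 1)) * w i = (θ - c - 1) * W := by
        simp only [sub_mul, Finset.sum_sub_distrib, ← Finset.mul_sum]
        rw [← hWdef]
        linarith
      rw [← key, sum_split n c (by omega)]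
      have hneg : ∑ i ∈ range (c + 1), ((i : ℝ) - (c + 1)) * w i ≤ 0 := by
        apply Finset.sum_nonpos
        intro i hi
        have hi' := Finset.mem_range.1 hi
        have : (i : ℝ) ≤ c := by exact_mod_cast (by omega : i ≤ c)
        exact mul_nonpos_of_nonpos_of_nonneg (by linarith) (hw _)
      have e3 : ∑ i ∈ Ico c n, (((i + 1 : ℕ) : ℝ) - (c + 1)) * w (i + 1) = S2 := by
        rw [hS2]
        apply Finset.sum_congr rfl
        intro i _
        push_cast
        ring
      rw [e3]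
      linarith
    have h3 : (θ - c - 1) * S1 < (θ - c - 1) * Q :=
      mul_lt_mul_of_pos_left hS1Q (by linarith)
    have h4 : (θ - c - 1) * Q = κ * ((θ - c - 1) * W) := by
      rw [← hκ]
      ring
    have h5 : κ * ((θ - c - 1) * W) ≤ κ * S2 := mul_le_mul_of_nonneg_left hA hκ0.le
    have h6 : ((c : ℝ) + 1 - θ) * S1 = -((θ - c - 1) * S1) := by ring
    rw [h6]
    linarith

end Pool.Agent.MP_fe2d2a_anEC
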