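import Mathlib
import Pool.Agent.Lib.MP_fe2d2a_anEC.Weights
import Pool.Agent.Lib.MP_fe2d2a_anEC.Root

/-!
The kernel computation: if `∏ (X + s_k^2)` has nonnegative coefficients (and positive constant
term) and `0 < Re s_k`, then `∑ s_k ∏_{j ≠ k} (X + s_j^2)` and
`∑_{k ≠ l} s_k s_l ∏_{j ≠ k, l} (X + s_j^2)` have positive real coefficients.
-/

set_option autoImplicit false

open Finset Polynomial

namespace Pool.Agent.MP_fe2d2a_anEC

variable {ι : Type*} [DecidableEq ι]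

/-- The product of `X + s_j^2`. -/
noncomputable def PP (s : ι → ℂ) (A : Finset ι) : ℂ[X] := ∏ j ∈ A, (X + C (s j ^ 2))

/-- The sum of `s_k` times the product over the other indices. -/
noncomputable def QQ (s : ι → ℂ) (A : Finset ι) : ℂ[X] := ∑ k ∈ A, C (s k) * PP s (A.erase k)

/-- The same for two indices. -/
noncomputable def RR (s : ι → ℂ) (A : Finset ι) : ℂ[X] := ∑ k ∈ A, C (s k) * QQ s (A.erase k)

/-- The kernel polynomial. -/
noncomputable def KK (s : ι → ℂ) (t : ℂ) (A : Finset ι) : ℂ[X] :=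
  ∑ k ∈ A, C (s k ^ 2 / (s k ^ 2 + t)) * PP s (A.erase k)

/-- The second kernel polynomial. -/
noncomputable def SS (s : ι → ℂ) (t : ℂ) (A : Finset ι) : ℂ[X] :=
  ∑ k ∈ A, C (s k) * KK s t (A.erase k)

/-- The auxiliary polynomial. -/
noncomputable def WW (s : ι → ℂ) (t : ℂ) (A : Finset ι) : ℂ[X] :=
  ∑ k ∈ A, C (s k / (s k ^ 2 + t)) * PP s (A.erase k)

lemma PP_erase (s : ι → ℂ) {A : Finset ι} {k : ι} (hk : k ∈ A) :
    (X + C (s k ^ 2)) * PP s (A.erase k) = PP s A := by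
  unfold PP
  exact Finset.mul_prod_erase A (fun j => (X + C (s j ^ 2) : ℂ[X])) hk

lemma PP_derivative (s : ι → ℂ) (A : Finset ι) :
    derivative (PP s A) = ∑ k ∈ A, PP s (A.erase k) := by
  unfold PP
  rw [derivative_prod_finset]
  apply Finset.sum_congr rfl
  intro k _
  rw [derivative_add, derivative_X, derivative_C, add_zero, mul_one]

lemma KK_identity (s : ι → ℂ) (t : ℂ) (A : Finset ι) (h : ∀ k ∈ A, s k ^ 2 + t ≠ 0) :
    (X - C t) * KK s t A = X * derivative (PP s A) -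
      C (∑ k ∈ A, t / (s k ^ 2 + t)) * PP s A := by
  rw [PP_derivative, map_sum, Finset.sum_mul, Finset.mul_sum, ← Finset.sum_sub_distrib]
  unfold KK
  rw [Finset.mul_sum]
  apply Finset.sum_congr rfl
  intro k hk
  rw [← PP_erase s hk]
  have e1 : (C (s k ^ 2 / (s k ^ 2 + t)) : ℂ[X]) * C (s k ^ 2 + t) = C (s k ^ 2) := by
    rw [← C_mul, div_mul_cancel₀ _ (h k hk)]
  have e2 : (C (t / (s k ^ 2 + t)) : ℂ[X]) * C (s k ^ 2 + t) = C t := by
    rw [← C_mul, div_mul_cancel₀ _ (h k hk)]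
  have e3 : (C (s k ^ 2 / (s k ^ 2 + t)) : ℂ[X]) + C (t / (s k ^ 2 + t)) = 1 := by
    rw [← C_add, ← add_div, div_self (h k hk), C_1]
  rw [C_add] at e1 e2
  generalize (C (s k ^ 2 / (s k ^ 2 + t)) : ℂ[X]) = a at *
  generalize (C (t / (s k ^ 2 + t)) : ℂ[X]) = b at *
  generalize (C (s k ^ 2) : ℂ[X]) = m at *
  generalize (C t : ℂ[X]) = τ at *
  generalize PP s (A.erase k) = P at *
  linear_combination (X * P) * e3 - P * e1 + P * m * e3

lemma WW_identity (s : ι → ℂ) (t : ℂ) (A : Finset ι) (h : ∀ k ∈ A, s k ^ 2 + t ≠ 0) :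
    (X - C t) * WW s t A = C (∑ k ∈ A, s k / (s k ^ 2 + t)) * PP s A - QQ s A := by
  unfold WW QQ
  rw [map_sum, Finset.sum_mul, Finset.mul_sum, ← Finset.sum_sub_distrib]
  apply Finset.sum_congr rfl
  intro k hk
  rw [← PP_erase s hk]
  have e1 : (C (s k / (s k ^ 2 + t)) : ℂ[X]) * C (s k ^ 2 + t) = C (s k) := by
    rw [← C_mul, div_mul_cancel₀ _ (h k hk)]
  rw [C_add] at e1
  generalize (C (s k / (s k ^ 2 + t)) : ℂ[X]) = a at *
  generalize (C (s k ^ 2) : ℂ[X]) = m at *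
  generalize (C t : ℂ[X]) = τ at *
  generalize PP s (A.erase k) = P at *
  generalize (C (s k) : ℂ[X]) = σ at *
  linear_combination (- P) * e1

lemma QQ_derivative (s : ι → ℂ) (A : Finset ι) :
    derivative (QQ s A) = ∑ k ∈ A, C (s k) * derivative (PP s (A.erase k)) := by
  unfold QQ
  rw [derivative_sum]
  apply Finset.sum_congr rfl
  intro k _
  rw [derivative_mul, derivative_C, zero_mul, zero_add]

lemma SS_identity (s : ι → ℂ) (t : ℂ) (A : Finset ι) (h : ∀ k ∈ A, s k ^ 2 + t ≠ 0) :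
    (X - C t) * SS s t A = X * derivative (QQ s A) -
      C (∑ k ∈ A, t / (s k ^ 2 + t)) * QQ s A + C t * WW s t A := by
  have e0 : ∀ k ∈ A, (X - C t) * (C (s k) * KK s t (A.erase k)) =
      X * (C (s k) * derivative (PP s (A.erase k))) -
      C (∑ k ∈ A, t / (s k ^ 2 + t)) * (C (s k) * PP s (A.erase k)) +
      C t * (C (s k / (s k ^ 2 + t)) * PP s (A.erase k)) := by
    intro k hk
    have h1 := KK_identity s t (A.erase k) (fun j hj => h j (Finset.mem_of_mem_erase hj))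
    have h2 : (∑ j ∈ A, t / (s j ^ 2 + t)) =
        t / (s k ^ 2 + t) + ∑ j ∈ A.erase k, t / (s j ^ 2 + t) :=
      (Finset.add_sum_erase A (fun j => t / (s j ^ 2 + t)) hk).symm
    have h3 : (C t : ℂ[X]) * C (s k / (s k ^ 2 + t)) = C (s k) * C (t / (s k ^ 2 + t)) := by
      rw [← C_mul, ← C_mul]
      congr 1
      ring
    rw [h2, C_add]
    linear_combination C (s k) * h1 - PP s (A.erase k) * h3
  rw [QQ_derivative]
  unfold SS QQ WW
  rw [Finset.mul_sum, Finset.sum_congr rfl e0, Finset.sum_add_distrib, Finset.sum_sub_distrib,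
    Finset.mul_sum, Finset.mul_sum, Finset.mul_sum]

/-- Synthetic division. -/
lemma div_coeff (K : ℂ[X]) (t : ℂ) (c N : ℕ) (hcN : c ≤ N) (hK : K.coeff N = 0) :
    K.coeff c * t ^ (c + 1) = ∑ j ∈ Ico c N, ((X - C t) * K).coeff (j + 1) * t ^ (j + 1) := by
  have step : ∀ j : ℕ, ((X - C t) * K).coeff (j + 1) = K.coeff j - t * K.coeff (j + 1) := by
    intro j
    rw [sub_mul, coeff_sub, coeff_X_mul, coeff_C_mul]
  have gen : ∀ N, c ≤ N → ∑ j ∈ Ico c N, ((X - C t) * K).coeff (j + 1) * t ^ (j + 1) =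
      K.coeff c * t ^ (c + 1) - K.coeff N * t ^ (N + 1) := by
    intro N hN
    induction N, hN using Nat.le_induction with
    | base => simp
    | succ N hN ih =>
      rw [Finset.sum_Ico_succ_top hN, ih, step]
      ring
  rw [gen N hcN, hK]
  ring

omit [DecidableEq ι] in
lemma PP_natDegree (s : ι → ℂ) (A : Finset ι) : (PP s A).natDegree = A.card := by
  unfold PP
  rw [natDegree_prod_of_monic]
  · rw [Finset.sum_congr rfl (fun i _ => natDegree_X_add_C (s i ^ 2))]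
    simp
  · intro i _
    exact monic_X_add_C _

omit [DecidableEq ι] in
lemma PP_coeff_zero_of_lt (s : ι → ℂ) (A : Finset ι) {j : ℕ} (hj : A.card < j) :
    (PP s A).coeff j = 0 :=
  coeff_eq_zero_of_natDegree_lt (by rw [PP_natDegree]; exact hj)

lemma sum_coeff_zero (s : ι → ℂ) (A : Finset ι) (c : ι → ℂ) {j : ℕ} (hj : A.card ≤ j) :
    (∑ k ∈ A, C (c k) * PP s (A.erase k)).coeff j = 0 := by
  rw [finsetSum_coeff]
  apply Finset.sum_eq_zero
  intro k hk
  rw [coeff_C_mul, PP_coeff_zero_of_lt, mul_zero]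
  rw [Finset.card_erase_of_mem hk]
  have : 0 < A.card := Finset.card_pos.2 ⟨k, hk⟩
  omega

lemma SS_coeff_zero (s : ι → ℂ) (t : ℂ) (A : Finset ι) {j : ℕ} (hj : A.card ≤ j + 1) :
    (SS s t A).coeff j = 0 := by
  unfold SS
  rw [finsetSum_coeff]
  apply Finset.sum_eq_zero
  intro k hk
  rw [coeff_C_mul]
  unfold KK
  rw [sum_coeff_zero, mul_zero]
  rw [Finset.card_erase_of_mem hk]
  omega

end Pool.Agent.MP_fe2d2a_anEC
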