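import Mathlib
import Pool.Agent.Lib.MP_fe2d2a_anEC.Kernel

/-!
Positivity of the coefficients of `QQ` and `RR`.
-/

set_option autoImplicit false

open Finset Polynomial MeasureTheory

namespace Pool.Agent.MP_fe2d2a_anEC

variable {ι : Type*} [DecidableEq ι]

lemma coeff_X_mul_derivative (p : ℂ[X]) (i : ℕ) :
    (X * derivative p).coeff i = (i : ℂ) * p.coeff i := by
  cases i with
  | zero => simp
  | succ i =>
    rw [coeff_X_mul, coeff_derivative]
    push_cast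
    ring

omit [DecidableEq ι] in
lemma PP_eval (s : ι → ℂ) (A : Finset ι) (t : ℂ) :
    (PP s A).eval t = ∑ i ∈ range (A.card + 1), (PP s A).coeff i * t ^ i := by
  rw [eval_eq_sum_range, PP_natDegree]

lemma theta_eq (s : ι → ℂ) (A : Finset ι) (t : ℂ) (h : ∀ k ∈ A, s k ^ 2 + t ≠ 0) :
    (∑ k ∈ A, t / (s k ^ 2 + t)) * ∑ i ∈ range (A.card + 1), (PP s A).coeff i * t ^ i =
      ∑ i ∈ range (A.card + 1), (i : ℂ) * ((PP s A).coeff i * t ^ i) := by
  have h1 := congrArg (eval t) (KK_identity s t A h)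
  rw [eval_mul, eval_sub, eval_X, eval_C, sub_self, zero_mul, eval_sub, eval_mul (p := C _),
    eval_C] at h1
  rw [← PP_eval]
  have h2 : (X * derivative (PP s A)).eval t =
      ∑ i ∈ range (A.card + 1), (i : ℂ) * ((PP s A).coeff i * t ^ i) := by
    rw [eval_eq_sum_range' (n := A.card + 1)]
    · apply Finset.sum_congr rfl
      intro i _
      rw [coeff_X_mul_derivative, mul_assoc]
    · by_cases hz : (PP s A).natDegree = 0
      · obtain ⟨c, hc⟩ := natDegree_eq_zero.1 hz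
        rw [← hc, derivative_C, mul_zero, natDegree_zero]
        omega
      · have h3 : (X * derivative (PP s A)).natDegree ≤ 1 + (derivative (PP s A)).natDegree :=
          natDegree_mul_le.trans (by rw [natDegree_X])
        have h4 := natDegree_derivative_lt hz
        rw [PP_natDegree] at h4 hz
        omega
  rw [← h2]
  linear_combination h1

lemma kappa_eq (s : ι → ℂ) (A : Finset ι) (t : ℂ) (h : ∀ k ∈ A, s k ^ 2 + t ≠ 0) :
    (∑ k ∈ A, s k / (s k ^ 2 + t)) * ∑ i ∈ range (A.card + 1), (PP s A).coeff i * t ^ i =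
      ∑ i ∈ range (A.card + 1), (QQ s A).coeff i * t ^ i := by
  have h1 := congrArg (eval t) (WW_identity s t A h)
  rw [eval_mul, eval_sub, eval_X, eval_C, sub_self, zero_mul, eval_sub, eval_mul, eval_C] at h1
  rw [← PP_eval]
  have h2 : (QQ s A).eval t =
      ∑ i ∈ range (A.card + 1), (QQ s A).coeff i * t ^ i := by
    rw [eval_eq_sum_range' (n := A.card + 1)]
    rw [Nat.lt_succ_iff]
    rw [natDegree_le_iff_coeff_eq_zero]
    intro j hj
    exact sum_coeff_zero s A s hj.le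
  rw [← h2]
  linear_combination -h1

/-- The reality of the two sums. -/
lemma KK_pos (s : ι → ℂ) (A : Finset ι) (hs : ∀ k ∈ A, 0 < (s k).re) (w : ℕ → ℝ)
    (hw : ∀ i, (PP s A).coeff i = (w i : ℂ)) (hw0 : ∀ i, 0 ≤ w i) (h0 : 0 < w 0)
    (hn : 0 < w A.card) (c : ℕ) (hc : c < A.card) (u : ℝ) (hu : 0 < u) :
    ((KK s ((u : ℂ) ^ 2) A).coeff c).im = 0 ∧ 0 < ((KK s ((u : ℂ) ^ 2) A).coeff c).re := by
  have hne : ∀ k ∈ A, s k ^ 2 + (u : ℂ) ^ 2 ≠ 0 := fun k hk => ne_zero_of_re_pos (hs k hk) u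
  set N := A.card with hN
  set v : ℕ → ℝ := fun i => w i * (u ^ 2) ^ i with hv
  have hv0 : ∀ i, 0 ≤ v i := fun i => mul_nonneg (hw0 i) (by positivity)
  have hvz : 0 < v 0 := by rw [hv]; simpa using h0
  have hvn : 0 < v N := mul_pos hn (by positivity)
  have hcast : ∀ i, (PP s A).coeff i * ((u : ℂ) ^ 2) ^ i = ((v i : ℝ) : ℂ) := by
    intro i
    rw [hw, hv]
    push_cast
    ring
  have hW : 0 < ∑ i ∈ range (N + 1), v i :=
    Finset.sum_pos' (fun i _ => hv0 i) ⟨0, Finset.mem_range.2 (by omega), hvz⟩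
  set θ : ℝ := (∑ i ∈ range (N + 1), (i : ℝ) * v i) / ∑ i ∈ range (N + 1), v i with hθ
  have hθ1 : θ * ∑ i ∈ range (N + 1), v i = ∑ i ∈ range (N + 1), (i : ℝ) * v i := by
    rw [hθ, div_mul_cancel₀ _ hW.ne']
  have hθC : (∑ k ∈ A, (u : ℂ) ^ 2 / (s k ^ 2 + (u : ℂ) ^ 2)) = (θ : ℂ) := by
    have h1 := theta_eq s A ((u : ℂ) ^ 2) hne
    rw [← hN] at h1
    simp only [hcast] at h1
    have h2 : (θ : ℂ) * ∑ i ∈ range (N + 1), ((v i : ℝ) : ℂ) =
        ∑ i ∈ range (N + 1), (i : ℂ) * ((v i : ℝ) : ℂ) := by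
      exact_mod_cast congrArg (fun x : ℝ => (x : ℂ)) hθ1
    have h3 : (∑ i ∈ range (N + 1), ((v i : ℝ) : ℂ)) ≠ 0 := by
      exact_mod_cast hW.ne'
    exact mul_right_cancel₀ h3 (h1.trans h2.symm)
  have hdiv := div_coeff (KK s ((u : ℂ) ^ 2) A) ((u : ℂ) ^ 2) c N hc.le
    (by unfold KK; exact sum_coeff_zero s A _ le_rfl)
  rw [KK_identity s _ A hne, hθC] at hdiv
  have e1 : ∑ j ∈ Ico c N, (X * derivative (PP s A) - C ((θ : ℝ) : ℂ) * PP s A).coeff (j + 1) *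
      ((u : ℂ) ^ 2) ^ (j + 1) = ((∑ j ∈ Ico c N, (((j : ℝ) + 1) - θ) * v (j + 1) : ℝ) : ℂ) := by
    rw [Complex.ofReal_sum]
    apply Finset.sum_congr rfl
    intro j _
    rw [coeff_sub, coeff_X_mul_derivative, coeff_C_mul, sub_mul, mul_assoc, mul_assoc, hcast]
    push_cast
    ring
  rw [e1] at hdiv
  have hpos := weights_one N c hc v hv0 hvz hvn θ hθ1
  have hfin : (KK s ((u : ℂ) ^ 2) A).coeff c =
      (((∑ j ∈ Ico c N, (((j : ℝ) + 1) - θ) * v (j + 1)) / (u ^ 2) ^ (c + 1) : ℝ) : ℂ) := by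
    rw [Complex.ofReal_div, ← hdiv]
    push_cast
    rw [mul_div_cancel_right₀]
    have : (u : ℂ) ≠ 0 := by exact_mod_cast hu.ne'
    positivity
  rw [hfin]
  constructor
  · exact Complex.ofReal_im _
  · rw [Complex.ofReal_re]
    positivity

lemma KK_integral (s : ι → ℂ) (A : Finset ι) (hs : ∀ k ∈ A, 0 < (s k).re) (c : ℕ) :
    IntegrableOn (fun u : ℝ => (KK s ((u : ℂ) ^ 2) A).coeff c) (Set.Ioi 0) ∧
    ∫ u in Set.Ioi (0 : ℝ), (KK s ((u : ℂ) ^ 2) A).coeff c =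
      (Real.pi : ℂ) / 2 * (QQ s A).coeff c := by
  have e : (fun u : ℝ => (KK s ((u : ℂ) ^ 2) A).coeff c) = fun u : ℝ =>
      ∑ k ∈ A, (s k ^ 2 / (s k ^ 2 + (u : ℂ) ^ 2)) * (PP s (A.erase k)).coeff c := by
    funext u
    unfold KK
    rw [finsetSum_coeff]
    apply Finset.sum_congr rfl
    intro k _
    rw [coeff_C_mul]
  rw [e]
  have hint : ∀ k ∈ A, IntegrableOn (fun u : ℝ =>
      (s k ^ 2 / (s k ^ 2 + (u : ℂ) ^ 2)) * (PP s (A.erase k)).coeff c) (Set.Ioi 0) := by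
    intro k hk
    exact (sqrt_integrable (hs k hk)).mul_const _
  constructor
  · exact integrable_finsetSum _ hint
  · rw [integral_finsetSum _ hint]
    unfold QQ
    rw [finsetSum_coeff, Finset.mul_sum]
    apply Finset.sum_congr rfl
    intro k hk
    rw [integral_mul_const, sqrt_integral (hs k hk), coeff_C_mul, mul_assoc]

lemma SS_integral (s : ι → ℂ) (A : Finset ι) (hs : ∀ k ∈ A, 0 < (s k).re) (c : ℕ) :
    IntegrableOn (fun u : ℝ => (SS s ((u : ℂ) ^ 2) A).coeff c) (Set.Ioi 0) ∧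
    ∫ u in Set.Ioi (0 : ℝ), (SS s ((u : ℂ) ^ 2) A).coeff c =
      (Real.pi : ℂ) / 2 * (RR s A).coeff c := by
  have e : (fun u : ℝ => (SS s ((u : ℂ) ^ 2) A).coeff c) = fun u : ℝ =>
      ∑ k ∈ A, s k * (KK s ((u : ℂ) ^ 2) (A.erase k)).coeff c := by
    funext u
    unfold SS
    rw [finsetSum_coeff]
    apply Finset.sum_congr rfl
    intro k _
    rw [coeff_C_mul]
  rw [e]
  have hk1 : ∀ k ∈ A, ∀ j ∈ A.erase k, 0 < (s j).re :=
    fun k _ j hj => hs j (Finset.mem_of_mem_erase hj)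
  have hint : ∀ k ∈ A, IntegrableOn (fun u : ℝ =>
      s k * (KK s ((u : ℂ) ^ 2) (A.erase k)).coeff c) (Set.Ioi 0) := by
    intro k hk
    exact (KK_integral s (A.erase k) (hk1 k hk) c).1.const_mul _
  constructor
  · exact integrable_finsetSum _ hint
  · rw [integral_finsetSum _ hint]
    unfold RR
    rw [finsetSum_coeff, Finset.mul_sum]
    apply Finset.sum_congr rfl
    intro k hk
    rw [integral_const_mul, (KK_integral s (A.erase k) (hk1 k hk) c).2, coeff_C_mul]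
    ring

lemma pos_of_pi_half {z y : ℂ} (h : z = (Real.pi : ℂ) / 2 * y) (hz : z.im = 0 ∧ 0 < z.re) :
    y.im = 0 ∧ 0 < y.re := by
  have e : ((Real.pi : ℂ) / 2) = ((Real.pi / 2 : ℝ) : ℂ) := by push_cast; rfl
  rw [e] at h
  have hpi : 0 < Real.pi / 2 := by positivity
  rw [h, Complex.im_ofReal_mul, Complex.re_ofReal_mul] at hz
  constructor
  · rcases mul_eq_zero.1 hz.1 with h1 | h1
    · exact absurd h1 hpi.ne'
    · exact h1
  · exact (mul_pos_iff_of_pos_left hpi).1 hz.2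

/-- The coefficients of `QQ` are positive. -/
lemma QQ_pos (s : ι → ℂ) (A : Finset ι) (hs : ∀ k ∈ A, 0 < (s k).re) (w : ℕ → ℝ)
    (hw : ∀ i, (PP s A).coeff i = (w i : ℂ)) (hw0 : ∀ i, 0 ≤ w i) (h0 : 0 < w 0)
    (hn : 0 < w A.card) (c : ℕ) (hc : c < A.card) :
    ((QQ s A).coeff c).im = 0 ∧ 0 < ((QQ s A).coeff c).re := by
  have h := KK_integral s A hs c
  exact pos_of_pi_half h.2.symm.symm (integral_pos_real h.1
    (fun u hu => KK_pos s A hs w hw hw0 h0 hn c hc u hu))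

lemma SS_pos (s : ι → ℂ) (A : Finset ι) (hs : ∀ k ∈ A, 0 < (s k).re) (w : ℕ → ℝ)
    (hw : ∀ i, (PP s A).coeff i = (w i : ℂ)) (hw0 : ∀ i, 0 ≤ w i) (h0 : 0 < w 0)
    (hn : 0 < w A.card) (c : ℕ) (hc : c + 1 < A.card) (u : ℝ) (hu : 0 < u) :
    ((SS s ((u : ℂ) ^ 2) A).coeff c).im = 0 ∧ 0 < ((SS s ((u : ℂ) ^ 2) A).coeff c).re := by
  have hne : ∀ k ∈ A, s k ^ 2 + (u : ℂ) ^ 2 ≠ 0 := fun k hk => ne_zero_of_re_pos (hs k hk) u
  have hQ := fun c hc => QQ_pos s A hs w hw hw0 h0 hn c hc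
  set N := A.card with hN
  set v : ℕ → ℝ := fun i => w i * (u ^ 2) ^ i with hv
  set q : ℕ → ℝ := fun i => ((QQ s A).coeff i).re * (u ^ 2) ^ i with hq
  have hv0 : ∀ i, 0 ≤ v i := fun i => mul_nonneg (hw0 i) (by positivity)
  have hvz : 0 < v 0 := by rw [hv]; simpa using h0
  have hvn : 0 < v N := mul_pos hn (by positivity)
  have hQz : ∀ i, N ≤ i → (QQ s A).coeff i = 0 := fun i hi => sum_coeff_zero s A s hi
  have hq0 : ∀ i, 0 ≤ q i := by
    intro i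
    rw [hq]
    apply mul_nonneg _ (by positivity)
    by_cases hi : i < N
    · exact (hQ i hi).2.le
    · rw [hQz i (by omega), Complex.zero_re]
  have hqz : 0 < q 0 := by
    rw [hq]
    simpa using (hQ 0 (by omega)).2
  have hcast : ∀ i, (PP s A).coeff i * ((u : ℂ) ^ 2) ^ i = ((v i : ℝ) : ℂ) := by
    intro i
    rw [hw, hv]
    push_cast
    ring
  have hQr : ∀ i, (QQ s A).coeff i = ((((QQ s A).coeff i).re : ℝ) : ℂ) := by
    intro i
    apply Complex.ext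
    · rw [Complex.ofReal_re]
    · rw [Complex.ofReal_im]
      by_cases hi : i < N
      · exact (hQ i hi).1
      · rw [hQz i (by omega), Complex.zero_im]
  have hcastq : ∀ i, (QQ s A).coeff i * ((u : ℂ) ^ 2) ^ i = ((q i : ℝ) : ℂ) := by
    intro i
    rw [hQr i, hq]
    push_cast
    rfl
  have hW : 0 < ∑ i ∈ range (N + 1), v i :=
    Finset.sum_pos' (fun i _ => hv0 i) ⟨0, Finset.mem_range.2 (by omega), hvz⟩
  have hWC : (∑ i ∈ range (N + 1), ((v i : ℝ) : ℂ)) ≠ 0 := by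
    exact_mod_cast hW.ne'
  set θ : ℝ := (∑ i ∈ range (N + 1), (i : ℝ) * v i) / ∑ i ∈ range (N + 1), v i with hθ
  have hθ1 : θ * ∑ i ∈ range (N + 1), v i = ∑ i ∈ range (N + 1), (i : ℝ) * v i := by
    rw [hθ, div_mul_cancel₀ _ hW.ne']
  have hθC : (∑ k ∈ A, (u : ℂ) ^ 2 / (s k ^ 2 + (u : ℂ) ^ 2)) = (θ : ℂ) := by
    have h1 := theta_eq s A ((u : ℂ) ^ 2) hne
    rw [← hN] at h1
    simp only [hcast] at h1
    have h2 : (θ : ℂ) * ∑ i ∈ range (N + 1), ((v i : ℝ) : ℂ) =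
        ∑ i ∈ range (N + 1), (i : ℂ) * ((v i : ℝ) : ℂ) := by
      exact_mod_cast congrArg (fun x : ℝ => (x : ℂ)) hθ1
    exact mul_right_cancel₀ hWC (h1.trans h2.symm)
  set κ : ℝ := (∑ i ∈ range (N + 1), q i) / ∑ i ∈ range (N + 1), v i with hκ
  have hκ1 : κ * ∑ i ∈ range (N + 1), v i = ∑ i ∈ range (N + 1), q i := by
    rw [hκ, div_mul_cancel₀ _ hW.ne']
  have hκC : (∑ k ∈ A, s k / (s k ^ 2 + (u : ℂ) ^ 2)) = (κ : ℂ) := by
    have h1 := kappa_eq s A ((u : ℂ) ^ 2) hne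
    rw [← hN] at h1
    simp only [hcast, hcastq] at h1
    have h2 : (κ : ℂ) * ∑ i ∈ range (N + 1), ((v i : ℝ) : ℂ) =
        ∑ i ∈ range (N + 1), ((q i : ℝ) : ℂ) := by
      exact_mod_cast congrArg (fun x : ℝ => (x : ℂ)) hκ1
    exact mul_right_cancel₀ hWC (h1.trans h2.symm)
  have hdiv := div_coeff (SS s ((u : ℂ) ^ 2) A) ((u : ℂ) ^ 2) c N (by omega)
    (SS_coeff_zero s _ A (by omega))
  rw [SS_identity s _ A hne, hθC] at hdiv
  have e1 : ∑ j ∈ Ico c N, (X * derivative (QQ s A) - C ((θ : ℝ) : ℂ) * QQ s A +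
      C ((u : ℂ) ^ 2) * WW s ((u : ℂ) ^ 2) A).coeff (j + 1) *
      ((u : ℂ) ^ 2) ^ (j + 1) = ((∑ j ∈ Ico c N, ((((j : ℝ) + 1) - θ) * q (j + 1) +
        ∑ i ∈ Ico (j + 1) N, (κ * v (i + 1) - q (i + 1))) : ℝ) : ℂ) := by
    rw [Complex.ofReal_sum]
    apply Finset.sum_congr rfl
    intro j hj
    have hj' := (Finset.mem_Ico.1 hj).2
    have hdw := div_coeff (WW s ((u : ℂ) ^ 2) A) ((u : ℂ) ^ 2) (j + 1) N (by omega)
      (by unfold WW; exact sum_coeff_zero s A _ le_rfl)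
    rw [WW_identity s _ A hne, hκC] at hdw
    have e2 : ∑ i ∈ Ico (j + 1) N, (C ((κ : ℝ) : ℂ) * PP s A - QQ s A).coeff (i + 1) *
        ((u : ℂ) ^ 2) ^ (i + 1) =
        ((∑ i ∈ Ico (j + 1) N, (κ * v (i + 1) - q (i + 1)) : ℝ) : ℂ) := by
      rw [Complex.ofReal_sum]
      apply Finset.sum_congr rfl
      intro i _
      rw [coeff_sub, coeff_C_mul, sub_mul, mul_assoc, hcast, hcastq]
      push_cast
      ring
    rw [e2] at hdw
    rw [coeff_add, coeff_sub, coeff_X_mul_derivative, coeff_C_mul, coeff_C_mul,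
      Complex.ofReal_add, ← hdw]
    have h5 := hcastq (j + 1)
    push_cast at h5 ⊢
    rw [← h5]
    ring
  rw [e1] at hdiv
  have hpos := weights_two N c hc v q hv0 hvn hq0 hqz θ κ hθ1 hκ1
  have hfin : (SS s ((u : ℂ) ^ 2) A).coeff c =
      (((∑ j ∈ Ico c N, ((((j : ℝ) + 1) - θ) * q (j + 1) +
        ∑ i ∈ Ico (j + 1) N, (κ * v (i + 1) - q (i + 1)))) / (u ^ 2) ^ (c + 1) : ℝ) : ℂ) := by
    rw [Complex.ofReal_div, ← hdiv]
    push_cast
    rw [mul_div_cancel_right₀]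
    have : (u : ℂ) ≠ 0 := by exact_mod_cast hu.ne'
    positivity
  rw [hfin]
  constructor
  · exact Complex.ofReal_im _
  · rw [Complex.ofReal_re]
    positivity

/-- The coefficients of `RR` are positive. -/
lemma RR_pos (s : ι → ℂ) (A : Finset ι) (hs : ∀ k ∈ A, 0 < (s k).re) (w : ℕ → ℝ)
    (hw : ∀ i, (PP s A).coeff i = (w i : ℂ)) (hw0 : ∀ i, 0 ≤ w i) (h0 : 0 < w 0)
    (hn : 0 < w A.card) (c : ℕ) (hc : c + 1 < A.card) :
    ((RR s A).coeff c).im = 0 ∧ 0 < ((RR s A).coeff c).re := by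
  have h := SS_integral s A hs c
  exact pos_of_pi_half h.2 (integral_pos_real h.1
    (fun u hu => SS_pos s A hs w hw hw0 h0 hn c hc u hu))

end Pool.Agent.MP_fe2d2a_anEC
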