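import Mathlib
import Pool.Agent.Lib.MP_fe2d2a_anEC.Core

/-!
The coefficients of `∏ (X^2 + s_k^2 + τ s_k X)` as polynomials in `τ`.
-/

set_option autoImplicit false

open Finset Polynomial Set

namespace Pool.Agent.MP_fe2d2a_anEC

variable {ι : Type*} [DecidableEq ι]

/-- A real polynomial whose first nonzero coefficient after the constant one is positive and of
index at most two increases to the right of `0`. -/
lemma local_mono (g : ℝ[X]) (h : 0 < g.coeff 1 ∨ (g.coeff 1 = 0 ∧ 0 < g.coeff 2)) :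
    ∃ δ > (0 : ℝ), StrictMonoOn (fun x : ℝ => g.eval x) (Icc 0 δ) := by
  have hd0 : (derivative g).coeff 0 = g.coeff 1 := by
    rw [coeff_derivative]
    simp
  have hd1 : (derivative g).coeff 1 = g.coeff 2 * 2 := by
    rw [coeff_derivative]
    norm_num
  have key : ∃ δ > (0 : ℝ), ∀ x ∈ Ioo 0 δ, 0 < (derivative g).eval x := by
    rcases h with h | ⟨h1, h2⟩
    · have hp : 0 < (derivative g).eval 0 := by
        rw [← coeff_zero_eq_eval_zero, hd0]
        exact h
      have hc : ContinuousAt (fun x => (derivative g).eval x) 0 :=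
        (derivative g).continuous.continuousAt
      have hev := hc.eventually (lt_mem_nhds hp)
      obtain ⟨δ, hδ, hb⟩ := Metric.eventually_nhds_iff.1 hev
      refine ⟨δ, hδ, fun x hx => hb ?_⟩
      rw [Real.dist_eq, sub_zero, abs_of_pos hx.1]
      exact hx.2
    · have hp : 0 < (divX (derivative g)).eval 0 := by
        rw [← coeff_zero_eq_eval_zero, coeff_divX, zero_add, hd1]
        linarith
      have hc : ContinuousAt (fun x => (divX (derivative g)).eval x) 0 :=
        (divX (derivative g)).continuous.continuousAt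
      have hev := hc.eventually (lt_mem_nhds hp)
      obtain ⟨δ, hδ, hb⟩ := Metric.eventually_nhds_iff.1 hev
      refine ⟨δ, hδ, fun x hx => ?_⟩
      have h3 : 0 < (divX (derivative g)).eval x := by
        apply hb
        rw [Real.dist_eq, sub_zero, abs_of_pos hx.1]
        exact hx.2
      have h4 : (derivative g).eval x = (divX (derivative g)).eval x * x := by
        conv_lhs => rw [← divX_mul_X_add (derivative g)]
        rw [eval_add, eval_mul, eval_X, eval_C, hd0, h1, add_zero]
      rw [h4]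
      exact mul_pos h3 hx.1
  obtain ⟨δ, hδ, hb⟩ := key
  refine ⟨δ, hδ, ?_⟩
  apply strictMonoOn_of_deriv_pos (convex_Icc 0 δ) g.continuous.continuousOn
  intro x hx
  rw [interior_Icc] at hx
  rw [Polynomial.deriv]
  exact hb x hx

/-- The product as a polynomial in the rotation variable. -/
noncomputable def DD (s : ι → ℂ) (A : Finset ι) : ℂ[X][X] :=
  ∏ j ∈ A, (C (X ^ 2 + C (s j ^ 2)) + X * C (C (s j) * X))

lemma DD_derivative (s : ι → ℂ) (A : Finset ι) :
    derivative (DD s A) = ∑ k ∈ A, DD s (A.erase k) * C (C (s k) * X) := by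
  unfold DD
  rw [derivative_prod_finset]
  apply Finset.sum_congr rfl
  intro k _
  rw [derivative_add, derivative_C, zero_add, derivative_mul, derivative_X, derivative_C,
    mul_zero, add_zero, one_mul]

omit [DecidableEq ι] in
lemma DD_eval_zero (s : ι → ℂ) (A : Finset ι) :
    (DD s A).eval 0 = expand ℂ 2 (PP s A) := by
  unfold DD PP
  rw [eval_prod, map_prod]
  apply Finset.prod_congr rfl
  intro k _
  rw [eval_add, eval_C, eval_mul, eval_X, zero_mul, add_zero, map_add, expand_X, expand_C]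

lemma DD_coeff_one (s : ι → ℂ) (A : Finset ι) :
    (DD s A).coeff 1 = X * expand ℂ 2 (QQ s A) := by
  have h : (derivative (DD s A)).coeff 0 = (DD s A).coeff 1 := by
    rw [coeff_derivative]
    simp
  rw [← h, coeff_zero_eq_eval_zero, DD_derivative, eval_finsetSum]
  unfold QQ
  rw [map_sum, Finset.mul_sum]
  apply Finset.sum_congr rfl
  intro k _
  rw [eval_mul, DD_eval_zero, eval_C, map_mul, expand_C]
  ring

lemma DD_coeff_two (s : ι → ℂ) (A : Finset ι) :
    (DD s A).coeff 2 * 2 = X ^ 2 * expand ℂ 2 (RR s A) := by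
  have h : (derivative (derivative (DD s A))).coeff 0 = (DD s A).coeff 2 * 2 := by
    rw [coeff_derivative, coeff_derivative]
    norm_num
  rw [← h, coeff_zero_eq_eval_zero, DD_derivative, derivative_sum, eval_finsetSum]
  unfold RR
  rw [map_sum, Finset.mul_sum]
  apply Finset.sum_congr rfl
  intro k _
  rw [derivative_mul, derivative_C, mul_zero, add_zero, eval_mul, eval_C,
    ← coeff_zero_eq_eval_zero, coeff_derivative, DD_coeff_one, map_mul, expand_C]
  push_cast
  ring

/-- The real polynomial describing one coefficient. -/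
noncomputable def GG (s : ι → ℂ) (A : Finset ι) (j : ℕ) : ℝ[X] :=
  ∑ b ∈ range ((DD s A).natDegree + 3), C (((DD s A).coeff b).coeff j).re * X ^ b

omit [DecidableEq ι] in
lemma GG_coeff (s : ι → ℂ) (A : Finset ι) (j b : ℕ) (hb : b < 3) :
    (GG s A j).coeff b = (((DD s A).coeff b).coeff j).re := by
  unfold GG
  rw [finsetSum_coeff]
  rw [Finset.sum_eq_single b]
  · rw [coeff_C_mul, coeff_X_pow, if_pos rfl, mul_one]
  · intro i _ hi
    rw [coeff_C_mul, coeff_X_pow, if_neg (Ne.symm hi), mul_zero]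
  · intro h
    exact absurd (Finset.mem_range.2 (by omega)) h

omit [DecidableEq ι] in
lemma GG_eval (s : ι → ℂ) (A : Finset ι) (j : ℕ) (τ : ℝ) :
    (GG s A j).eval τ =
      ((∏ k ∈ A, (X ^ 2 + C (s k ^ 2) + C ((τ : ℂ) * s k) * X) : ℂ[X]).coeff j).re := by
  have e : (∏ k ∈ A, (X ^ 2 + C (s k ^ 2) + C ((τ : ℂ) * s k) * X) : ℂ[X]) =
      (DD s A).eval (C (τ : ℂ)) := by
    unfold DD
    rw [eval_prod]
    apply Finset.prod_congr rfl
    intro k _
    rw [eval_add, eval_C, eval_mul, eval_X, eval_C, C_mul]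
    ring
  rw [e, eval_eq_sum_range' (p := DD s A) (n := (DD s A).natDegree + 3) (by omega),
    finsetSum_coeff, Complex.re_sum]
  unfold GG
  rw [eval_finsetSum]
  apply Finset.sum_congr rfl
  intro b _
  rw [eval_mul, eval_C, eval_pow, eval_X, ← C_pow, coeff_mul_C, ← Complex.ofReal_pow,
    Complex.re_mul_ofReal]

lemma GG_mono (s : ι → ℂ) (A : Finset ι) (hs : ∀ k ∈ A, 0 < (s k).re) (w : ℕ → ℝ)
    (hw : ∀ i, (PP s A).coeff i = (w i : ℂ)) (hw0 : ∀ i, 0 ≤ w i) (h0 : 0 < w 0)
    (hn : 0 < w A.card) (j : ℕ) (hj0 : 0 < j) (hj : j < 2 * A.card) :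
    0 < (GG s A j).coeff 1 ∨ ((GG s A j).coeff 1 = 0 ∧ 0 < (GG s A j).coeff 2) := by
  rw [GG_coeff s A j 1 (by omega), GG_coeff s A j 2 (by omega), DD_coeff_one]
  obtain ⟨c, hc⟩ : ∃ c, j = 2 * c + 1 ∨ j = 2 * c + 2 := ⟨(j - 1) / 2, by omega⟩
  rcases hc with hc | hc
  · left
    rw [hc, coeff_X_mul, mul_comm 2 c, coeff_expand_mul (by norm_num)]
    exact (QQ_pos s A hs w hw hw0 h0 hn c (by omega)).2
  · right
    constructor
    · have hnd : ¬ 2 ∣ (2 * c + 1) := by omega
      rw [hc, show 2 * c + 2 = (2 * c + 1) + 1 by ring, coeff_X_mul,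
        coeff_expand (by norm_num), if_neg hnd, Complex.zero_re]
    · have h2 := congrArg (fun p : ℂ[X] => p.coeff j) (DD_coeff_two s A)
      have e2 : ((DD s A).coeff 2 * 2 : ℂ[X]) = (DD s A).coeff 2 * C 2 := by
        rw [show (C (2 : ℂ) : ℂ[X]) = 2 from rfl]
      rw [e2, coeff_mul_C, hc, coeff_X_pow_mul, mul_comm 2 c,
        coeff_expand_mul (by norm_num)] at h2
      have h3 := (RR_pos s A hs w hw hw0 h0 hn c (by omega)).2
      rw [← h2] at h3
      rw [hc, mul_comm 2 c]
      have h4 : (((DD s A).coeff 2).coeff (c * 2 + 2) * 2).re =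
          (((DD s A).coeff 2).coeff (c * 2 + 2)).re * 2 := by
        rw [show (2 : ℂ) = ((2 : ℝ) : ℂ) by norm_num, Complex.re_mul_ofReal]
      rw [h4] at h3
      linarith

end Pool.Agent.MP_fe2d2a_anEC
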