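import Mathlib
import Pool.Agent.Lib.MP_fe2d2a_anEC.Taylor

/-!
The rotated polynomial of an even configuration.
-/

set_option autoImplicit false

open Finset Polynomial Set

namespace Pool.Agent.MP_fe2d2a_anEC

variable {ι : Type*} [DecidableEq ι]

/-- The rotated polynomial. -/
noncomputable def RP (a : ι → ℝ) (A : Finset ι) (t : ℝ) : ℝ[X] :=
  ∏ k ∈ A, (X ^ 2 - C (2 * Real.cos (t + a k)) * X + 1)

/-- The rotation parameter of a zero. -/
noncomputable def sp (a : ι → ℝ) (k : ι) : ℂ := -Complex.I * Complex.exp ((a k : ℂ) * Complex.I)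

omit [DecidableEq ι] in
lemma RP_map_eval (a : ι → ℝ) (A : Finset ι) (t : ℝ) (x : ℂ) :
    ((RP a A t).map (algebraMap ℝ ℂ)).eval x =
      (∏ k ∈ A, (x - Complex.exp ((t : ℂ) * Complex.I) * Complex.exp ((a k : ℂ) * Complex.I))) *
      ∏ k ∈ A, (x - Complex.exp (-(t : ℂ) * Complex.I) * Complex.exp (-(a k : ℂ) * Complex.I)) := by
  unfold RP
  rw [Polynomial.map_prod, eval_prod, ← Finset.prod_mul_distrib]
  apply Finset.prod_congr rfl
  intro k _
  rw [Polynomial.map_add, Polynomial.map_sub, Polynomial.map_pow, Polynomial.map_mul, map_X,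
    map_C, Polynomial.map_one, eval_add, eval_sub, eval_pow, eval_mul, eval_X, eval_C, eval_one,
    ← Complex.exp_add, ← Complex.exp_add, ← add_mul, ← add_mul]
  have h1 : (algebraMap ℝ ℂ) (2 * Real.cos (t + a k)) =
      Complex.exp (((t : ℂ) + a k) * Complex.I) + Complex.exp ((-(t : ℂ) + -(a k : ℂ)) * Complex.I) := by
    rw [show (algebraMap ℝ ℂ) (2 * Real.cos (t + a k)) =
      ((2 * Real.cos (t + a k) : ℝ) : ℂ) from rfl]
    push_cast
    rw [Complex.two_cos]
    congr 2
    ring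
  have h2 : Complex.exp (((t : ℂ) + a k) * Complex.I) *
      Complex.exp ((-(t : ℂ) + -(a k : ℂ)) * Complex.I) = 1 := by
    rw [← Complex.exp_add, ← Complex.exp_zero]
    congr 1
    ring
  rw [h1]
  linear_combination -h2

omit [DecidableEq ι] in
lemma exp_im_pos {a : ι → ℝ} {k : ι} (h : 0 < a k ∧ a k < Real.pi) :
    0 < (Complex.exp ((a k : ℂ) * Complex.I)).im := by
  rw [Complex.exp_ofReal_mul_I_im]
  exact Real.sin_pos_of_pos_of_lt_pi h.1 h.2

omit [DecidableEq ι] in
lemma exp_im_neg {a : ι → ℝ} {k : ι} (h : 0 < a k ∧ a k < Real.pi) :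
    (Complex.exp (-(a k : ℂ) * Complex.I)).im < 0 := by
  rw [← Complex.ofReal_neg, Complex.exp_ofReal_mul_I_im, Real.sin_neg]
  have := Real.sin_pos_of_pos_of_lt_pi h.1 h.2
  linarith

omit [DecidableEq ι] in
lemma sp_re {a : ι → ℝ} {k : ι} (h : 0 < a k ∧ a k < Real.pi) : 0 < (sp a k).re := by
  have e : (sp a k).re = (Complex.exp ((a k : ℂ) * Complex.I)).im := by
    unfold sp
    simp
  rw [e]
  exact exp_im_pos h

omit [DecidableEq ι] in
/-- For an even polynomial the zeros in the lower half plane are the opposites of those in the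
upper half plane. -/
lemma lower_eq (a : ι → ℝ) (A : Finset ι) (ha : ∀ k ∈ A, 0 < a k ∧ a k < Real.pi)
    (hodd : ∀ j, Odd j → (RP a A 0).coeff j = 0) :
    (∏ k ∈ A, (X - C (Complex.exp (-(a k : ℂ) * Complex.I))) : ℂ[X]) =
      ∏ k ∈ A, (X - C (-Complex.exp ((a k : ℂ) * Complex.I))) := by
  set P : ℂ[X] := (RP a A 0).map (algebraMap ℝ ℂ) with hP
  have hev : ∀ x : ℂ, P.eval (-x) = P.eval x := by
    intro x
    rw [eval_eq_sum_range, eval_eq_sum_range]
    apply Finset.sum_congr rfl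
    intro i _
    rcases Nat.even_or_odd i with hi | hi
    · rw [hi.neg_pow]
    · rw [hP, coeff_map, hodd i hi, map_zero, zero_mul, zero_mul]
  have e1 : P = (∏ k ∈ A, (X - C (Complex.exp ((a k : ℂ) * Complex.I)))) *
      ∏ k ∈ A, (X - C (Complex.exp (-(a k : ℂ) * Complex.I))) := by
    apply Polynomial.funext
    intro x
    rw [hP, RP_map_eval, eval_mul, eval_prod, eval_prod]
    simp
  have e2 : P = (∏ k ∈ A, (X - C (-Complex.exp ((a k : ℂ) * Complex.I)))) *
      ∏ k ∈ A, (X - C (-Complex.exp (-(a k : ℂ) * Complex.I))) := by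
    apply Polynomial.funext
    intro x
    rw [← hev x, e1, eval_mul, eval_mul, eval_prod, eval_prod, eval_prod, eval_prod,
      ← Finset.prod_mul_distrib, ← Finset.prod_mul_distrib]
    apply Finset.prod_congr rfl
    intro k _
    rw [eval_sub, eval_sub, eval_sub, eval_sub, eval_X, eval_X, eval_C, eval_C, eval_C, eval_C]
    ring
  have hcop : IsCoprime (∏ k ∈ A, (X - C (Complex.exp (-(a k : ℂ) * Complex.I))) : ℂ[X])
      (∏ k ∈ A, (X - C (-Complex.exp (-(a k : ℂ) * Complex.I)))) := by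
    apply IsCoprime.prod_left
    intro k hk
    apply IsCoprime.prod_right
    intro l hl
    apply isCoprime_X_sub_C_of_isUnit_sub
    apply IsUnit.mk0
    intro h
    have h1 := exp_im_neg (ha k hk)
    have h2 := exp_im_neg (ha l hl)
    have h3 := congrArg Complex.im h
    rw [Complex.sub_im, Complex.neg_im, Complex.zero_im] at h3
    linarith
  have hdvd : (∏ k ∈ A, (X - C (Complex.exp (-(a k : ℂ) * Complex.I))) : ℂ[X]) ∣
      ∏ k ∈ A, (X - C (-Complex.exp ((a k : ℂ) * Complex.I))) := by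
    apply hcop.dvd_of_dvd_mul_right
    rw [← e2, e1]
    exact dvd_mul_left _ _
  have hm1 : (∏ k ∈ A, (X - C (Complex.exp (-(a k : ℂ) * Complex.I))) : ℂ[X]).Monic :=
    monic_prod_of_monic _ _ (fun k _ => monic_X_sub_C _)
  have hm2 : (∏ k ∈ A, (X - C (-Complex.exp ((a k : ℂ) * Complex.I))) : ℂ[X]).Monic :=
    monic_prod_of_monic _ _ (fun k _ => monic_X_sub_C _)
  have hd1 : (∏ k ∈ A, (X - C (Complex.exp (-(a k : ℂ) * Complex.I))) : ℂ[X]).natDegree =
      A.card := by
    rw [natDegree_prod_of_monic _ _ (fun k _ => monic_X_sub_C _)]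
    rw [Finset.sum_congr rfl (fun k _ => natDegree_X_sub_C _)]
    simp
  have hd2 : (∏ k ∈ A, (X - C (-Complex.exp ((a k : ℂ) * Complex.I))) : ℂ[X]).natDegree =
      A.card := by
    rw [natDegree_prod_of_monic _ _ (fun k _ => monic_X_sub_C _)]
    rw [Finset.sum_congr rfl (fun k _ => natDegree_X_sub_C _)]
    simp
  exact (eq_of_monic_of_dvd_of_natDegree_le hm1 hm2 hdvd (by rw [hd1, hd2])).symm

omit [DecidableEq ι] in
lemma RP_map (a : ι → ℝ) (A : Finset ι) (ha : ∀ k ∈ A, 0 < a k ∧ a k < Real.pi)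
    (hodd : ∀ j, Odd j → (RP a A 0).coeff j = 0) (t : ℝ) :
    (RP a A t).map (algebraMap ℝ ℂ) =
      ∏ k ∈ A, (X ^ 2 + C (sp a k ^ 2) + C (((2 * Real.sin t : ℝ) : ℂ) * sp a k) * X) := by
  apply Polynomial.funext
  intro x
  rw [RP_map_eval]
  have hw : Complex.exp (-(t : ℂ) * Complex.I) ≠ 0 := Complex.exp_ne_zero _
  set w := Complex.exp (-(t : ℂ) * Complex.I) with hwdef
  have h1 : ∏ k ∈ A, (x - w * Complex.exp (-(a k : ℂ) * Complex.I)) =
      ∏ k ∈ A, (x - w * (-Complex.exp ((a k : ℂ) * Complex.I))) := by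
    have h2 := congrArg (eval (x / w)) (lower_eq a A ha hodd)
    rw [eval_prod, eval_prod] at h2
    have h3 : ∀ b : ι → ℂ, ∏ k ∈ A, (x - w * b k) =
        w ^ A.card * ∏ k ∈ A, (X - C (b k) : ℂ[X]).eval (x / w) := by
      intro b
      rw [← Finset.prod_const, ← Finset.prod_mul_distrib]
      apply Finset.prod_congr rfl
      intro k _
      rw [eval_sub, eval_X, eval_C]
      field_simp
    rw [h3, h3, h2]
  rw [h1, ← Finset.prod_mul_distrib, eval_prod]
  apply Finset.prod_congr rfl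
  intro k _
  have h4 : ((2 * Real.sin t : ℝ) : ℂ) = (w - Complex.exp ((t : ℂ) * Complex.I)) * Complex.I := by
    push_cast
    rw [Complex.two_sin]
  have h5 : Complex.exp ((t : ℂ) * Complex.I) * w = 1 := by
    rw [hwdef, ← Complex.exp_add, ← Complex.exp_zero]
    congr 1
    ring
  have hI : Complex.I ^ 2 = -1 := Complex.I_sq
  rw [eval_add, eval_add, eval_pow, eval_mul, eval_X, eval_C, eval_C, h4]
  unfold sp
  generalize Complex.exp ((t : ℂ) * Complex.I) = e at *
  generalize Complex.exp ((a k : ℂ) * Complex.I) = z at *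
  linear_combination (-(z ^ 2)) * h5 + ((w - e) * z * x - z ^ 2) * hI

omit [DecidableEq ι] in
lemma RP_coeff_zero (a : ι → ℝ) (A : Finset ι) (t : ℝ) : (RP a A t).coeff 0 = 1 := by
  rw [coeff_zero_eq_eval_zero]
  unfold RP
  rw [eval_prod]
  apply Finset.prod_eq_one
  intro k _
  simp

omit [DecidableEq ι] in
lemma fac_monic (c : ℝ) : (X ^ 2 - C c * X + 1 : ℝ[X]).Monic := by
  have e : (X ^ 2 - C c * X + 1 : ℝ[X]) = X ^ 2 + (C (-c) * X + C 1) := by
    rw [C_neg, C_1]
    ring
  rw [e]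
  apply monic_X_pow_add
  exact lt_of_le_of_lt degree_linear_le (by norm_num)

omit [DecidableEq ι] in
lemma fac_natDegree (c : ℝ) : (X ^ 2 - C c * X + 1 : ℝ[X]).natDegree = 2 := by
  have e : (X ^ 2 - C c * X + 1 : ℝ[X]) = X ^ 2 + (C (-c) * X + C 1) := by
    rw [C_neg, C_1]
    ring
  rw [e, natDegree_add_eq_left_of_natDegree_lt]
  · exact natDegree_X_pow 2
  · rw [natDegree_X_pow]
    exact lt_of_le_of_lt natDegree_linear_le (by norm_num)

omit [DecidableEq ι] in
lemma RP_monic (a : ι → ℝ) (A : Finset ι) (t : ℝ) : (RP a A t).Monic :=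
  monic_prod_of_monic _ _ (fun _ _ => fac_monic _)

omit [DecidableEq ι] in
lemma RP_natDegree (a : ι → ℝ) (A : Finset ι) (t : ℝ) : (RP a A t).natDegree = 2 * A.card := by
  unfold RP
  rw [natDegree_prod_of_monic _ _ (fun k _ => fac_monic _)]
  rw [Finset.sum_congr rfl (fun k _ => fac_natDegree _)]
  simp [mul_comm]

/-- The local monotonicity for one even group, one coefficient. -/
lemma even_coeff (a : ι → ℝ) (A : Finset ι) (ha : ∀ k ∈ A, 0 < a k ∧ a k < Real.pi)
    (hpos : ∀ j, 0 ≤ (RP a A 0).coeff j) (hodd : ∀ j, Odd j → (RP a A 0).coeff j = 0) (j : ℕ) :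
    ∃ ε > (0 : ℝ), MonotoneOn (fun t : ℝ => (RP a A t).coeff j) (Icc 0 ε) := by
  by_cases hj0 : j = 0
  · refine ⟨1, one_pos, ?_⟩
    intro x _ y _ _
    simp only [hj0, RP_coeff_zero, le_refl]
  by_cases hj : j < 2 * A.card
  · have hmap0 : ∀ i, (PP (sp a) A).coeff i = (((RP a A 0).coeff (i * 2) : ℝ) : ℂ) := by
      intro i
      have h1 := congrArg (fun p : ℂ[X] => p.coeff (i * 2)) (RP_map a A ha hodd 0)
      have h2 : (∏ k ∈ A, (X ^ 2 + C (sp a k ^ 2) +
          C (((2 * Real.sin 0 : ℝ) : ℂ) * sp a k) * X) : ℂ[X]) = expand ℂ 2 (PP (sp a) A) := by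
        unfold PP
        rw [map_prod]
        apply Finset.prod_congr rfl
        intro k _
        rw [map_add, expand_X, expand_C]
        simp
      rw [h2, coeff_expand_mul (by norm_num), coeff_map] at h1
      exact h1.symm
    have hn : 0 < (RP a A 0).coeff (A.card * 2) := by
      have h1 : (RP a A 0).coeff (A.card * 2) = 1 := by
        have h2 := (RP_monic a A 0).coeff_natDegree
        rwa [RP_natDegree, mul_comm] at h2
      rw [h1]
      exact one_pos
    have hg := GG_mono (sp a) A (fun k hk => sp_re (ha k hk)) (fun i => (RP a A 0).coeff (i * 2))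
      hmap0 (fun i => hpos _) (by simp only [zero_mul, RP_coeff_zero, one_pos]) hn j
      (by omega) hj
    obtain ⟨δ, hδ, hm⟩ := local_mono _ hg
    have hval : ∀ t : ℝ, (RP a A t).coeff j = (GG (sp a) A j).eval (2 * Real.sin t) := by
      intro t
      rw [GG_eval, ← RP_map a A ha hodd t, coeff_map]
      rfl
    refine ⟨min (δ / 2) 1, by positivity, ?_⟩
    intro x hx y hy hxy
    simp only [hval]
    have hb : ∀ z ∈ Icc (0 : ℝ) (min (δ / 2) 1), 2 * Real.sin z ∈ Icc (0 : ℝ) δ := by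
      intro z hz
      have h1 : z ≤ 1 := hz.2.trans (min_le_right _ _)
      have h2 : z ≤ δ / 2 := hz.2.trans (min_le_left _ _)
      have h3 : 0 ≤ Real.sin z :=
        Real.sin_nonneg_of_nonneg_of_le_pi hz.1 (by linarith [Real.pi_gt_three])
      have h4 : Real.sin z ≤ z := Real.sin_le hz.1
      exact ⟨by linarith, by linarith⟩
    apply hm.monotoneOn (hb x hx) (hb y hy)
    have h1 : y ≤ 1 := hy.2.trans (min_le_right _ _)
    have : Real.sin x ≤ Real.sin y := by
      apply Real.sin_le_sin_of_le_of_le_pi_div_two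
      · linarith [hx.1, Real.pi_gt_three]
      · linarith [Real.pi_gt_three]
      · exact hxy
    linarith
  · refine ⟨1, one_pos, ?_⟩
    intro x _ y _ _
    have hc : ∀ t, (RP a A t).coeff j = if j = 2 * A.card then 1 else 0 := by
      intro t
      split_ifs with h
      · have h2 := (RP_monic a A t).coeff_natDegree
        rwa [RP_natDegree, ← h] at h2
      · apply coeff_eq_zero_of_natDegree_lt
        rw [RP_natDegree]
        omega
    simp only [hc, le_refl]

end Pool.Agent.MP_fe2d2a_anEC
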