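import Mathlib
import Pool.Agent.Lib.MP_fe2d2a_anEC.Rot

/-!
Uniform version for all coefficients, the case of at most two pairs of zeros, and products.
-/

set_option autoImplicit false

open Finset Polynomial Set

namespace Pool.Agent.MP_fe2d2a_anEC

variable {ι : Type*} [DecidableEq ι]

/-- Monotonicity of all coefficients on a common interval. -/
lemma even_block (a : ι → ℝ) (A : Finset ι) (ha : ∀ k ∈ A, 0 < a k ∧ a k < Real.pi)
    (hpos : ∀ j, 0 ≤ (RP a A 0).coeff j) (hodd : ∀ j, Odd j → (RP a A 0).coeff j = 0) :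
    ∃ ε > (0 : ℝ), ∀ j, MonotoneOn (fun t : ℝ => (RP a A t).coeff j) (Icc 0 ε) := by
  have h1 : ∀ M : ℕ, ∃ ε > (0 : ℝ), ∀ j < M,
      MonotoneOn (fun t : ℝ => (RP a A t).coeff j) (Icc 0 ε) := by
    intro M
    induction M with
    | zero => exact ⟨1, one_pos, fun j hj => absurd hj (by omega)⟩
    | succ M ih =>
      obtain ⟨ε1, h1, hm1⟩ := ih
      obtain ⟨ε2, h2, hm2⟩ := even_coeff a A ha hpos hodd M
      refine ⟨min ε1 ε2, by positivity, ?_⟩
      intro j hj
      by_cases hjM : j < M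
      · exact (hm1 j hjM).mono (Icc_subset_Icc le_rfl (min_le_left _ _))
      · have : j = M := by omega
        rw [this]
        exact hm2.mono (Icc_subset_Icc le_rfl (min_le_right _ _))
  obtain ⟨ε, hε, hm⟩ := h1 (2 * A.card + 1)
  refine ⟨ε, hε, fun j => ?_⟩
  by_cases hj : j < 2 * A.card + 1
  · exact hm j hj
  · intro x _ y _ _
    have hc : ∀ t, (RP a A t).coeff j = 0 := by
      intro t
      apply coeff_eq_zero_of_natDegree_lt
      rw [RP_natDegree]
      omega
    simp only [hc, le_refl]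

lemma neg_cos_mono {α ε : ℝ} (h0 : 0 < α) (h1 : ε ≤ Real.pi - α) {x y : ℝ}
    (hx : x ∈ Icc (0 : ℝ) ε) (hy : y ∈ Icc (0 : ℝ) ε) (hxy : x ≤ y) :
    Real.cos (y + α) ≤ Real.cos (x + α) := by
  apply Real.cos_le_cos_of_nonneg_of_le_pi
  · linarith [hx.1]
  · linarith [hy.2]
  · linarith

/-- At most two pairs of zeros. -/
lemma small_block (a : ι → ℝ) (A : Finset ι) (ha : ∀ k ∈ A, 0 < a k ∧ a k < Real.pi)
    (hpos : ∀ j, 0 ≤ (RP a A 0).coeff j) (hcard : A.card ≤ 2) :
    ∃ ε > (0 : ℝ), ∀ j, MonotoneOn (fun t : ℝ => (RP a A t).coeff j) (Icc 0 ε) := by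
  have hcases : A.card = 0 ∨ A.card = 1 ∨ A.card = 2 := by omega
  rcases hcases with h | h | h
  · rw [Finset.card_eq_zero] at h
    refine ⟨1, one_pos, fun j => ?_⟩
    intro x _ y _ _
    simp [RP, h]
  · obtain ⟨k, hk⟩ := Finset.card_eq_one.1 h
    have hak := ha k (by rw [hk]; exact Finset.mem_singleton_self k)
    refine ⟨Real.pi - a k, by linarith [hak.2], fun j => ?_⟩
    intro x hx y hy hxy
    have e : ∀ t, (RP a A t).coeff j =
        (X ^ 2 + 1 : ℝ[X]).coeff j + (-(2 * Real.cos (t + a k))) * (X : ℝ[X]).coeff j := by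
      intro t
      rw [← coeff_C_mul, ← coeff_add]
      congr 1
      unfold RP
      rw [hk, Finset.prod_singleton, C_neg]
      ring
    have hX : 0 ≤ (X : ℝ[X]).coeff j := by
      rw [coeff_X]
      split_ifs <;> norm_num
    have hc := neg_cos_mono hak.1 le_rfl hx hy hxy
    simp only [e]
    have := mul_le_mul_of_nonneg_right
      (show (-(2 * Real.cos (x + a k))) ≤ (-(2 * Real.cos (y + a k))) by linarith) hX
    linarith
  · obtain ⟨k, l, hkl, hA⟩ := Finset.card_eq_two.1 h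
    have hak := ha k (by rw [hA]; simp)
    have hal := ha l (by rw [hA]; simp)
    have e : ∀ t j, (RP a A t).coeff j =
        (X ^ 4 + 2 * X ^ 2 + 1 : ℝ[X]).coeff j +
        (-(2 * Real.cos (t + a k)) + -(2 * Real.cos (t + a l))) * (X ^ 3 + X : ℝ[X]).coeff j +
        ((2 * Real.cos (t + a k)) * (2 * Real.cos (t + a l))) * (X ^ 2 : ℝ[X]).coeff j := by
      intro t j
      rw [← coeff_C_mul, ← coeff_C_mul, ← coeff_add, ← coeff_add]
      congr 1
      unfold RP
      rw [hA, Finset.prod_pair hkl, C_add, C_neg, C_neg,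
        C_mul (a := 2 * Real.cos (t + a k)) (b := 2 * Real.cos (t + a l))]
      ring
    have hsum : Real.pi ≤ a k + a l := by
      have h1 := hpos 1
      rw [e] at h1
      have c1 : (X ^ 4 + 2 * X ^ 2 + 1 : ℝ[X]).coeff 1 = 0 := by
        rw [show (X ^ 4 + 2 * X ^ 2 + 1 : ℝ[X]) = X ^ 4 + C 2 * X ^ 2 + 1 by
          rw [show (C (2 : ℝ) : ℝ[X]) = 2 from rfl]]
        rw [coeff_add, coeff_add, coeff_C_mul, coeff_X_pow, coeff_X_pow, coeff_one]
        norm_num
      have c2 : (X ^ 3 + X : ℝ[X]).coeff 1 = 1 := by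
        rw [coeff_add, coeff_X_pow, coeff_X]
        norm_num
      have c3 : (X ^ 2 : ℝ[X]).coeff 1 = 0 := by
        rw [coeff_X_pow]
        norm_num
      rw [c1, c2, c3, zero_add, zero_add, mul_one, mul_zero, add_zero, zero_add] at h1
      by_contra hlt
      push Not at hlt
      have h2 : Real.cos (Real.pi - a l) < Real.cos (a k) := by
        apply Real.cos_lt_cos_of_nonneg_of_le_pi hak.1.le
        · linarith [hal.1]
        · linarith
      rw [Real.cos_pi_sub] at h2
      linarith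
    refine ⟨min (Real.pi - a k) (Real.pi - a l), ?_, fun j => ?_⟩
    · apply lt_min
      · linarith [hak.2]
      · linarith [hal.2]
    intro x hx y hy hxy
    have hX3 : 0 ≤ (X ^ 3 + X : ℝ[X]).coeff j := by
      rw [coeff_add, coeff_X_pow, coeff_X]
      split_ifs <;> norm_num
    have hX2 : 0 ≤ (X ^ 2 : ℝ[X]).coeff j := by
      rw [coeff_X_pow]
      split_ifs <;> norm_num
    have hk := neg_cos_mono hak.1 (min_le_left _ _) hx hy hxy
    have hl := neg_cos_mono hal.1 (min_le_right _ _) hx hy hxy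
    have hprod : (2 * Real.cos (x + a k)) * (2 * Real.cos (x + a l)) ≤
        (2 * Real.cos (y + a k)) * (2 * Real.cos (y + a l)) := by
      have hp : ∀ t : ℝ, (2 * Real.cos (t + a k)) * (2 * Real.cos (t + a l)) =
          2 * Real.cos (a k - a l) + 2 * Real.cos (2 * t + a k + a l) := by
        intro t
        have e1 : a k - a l = (t + a k) - (t + a l) := by ring
        have e2 : 2 * t + a k + a l = (t + a k) + (t + a l) := by ring
        rw [e1, e2, Real.cos_sub (t + a k) (t + a l), Real.cos_add (t + a k) (t + a l)]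
        ring
      rw [hp, hp]
      have hy1 : y ≤ Real.pi - a k := hy.2.trans (min_le_left _ _)
      have hy2 : y ≤ Real.pi - a l := hy.2.trans (min_le_right _ _)
      have hcos : Real.cos (2 * x + a k + a l) ≤ Real.cos (2 * y + a k + a l) := by
        have e1 : Real.cos (2 * x + a k + a l) = Real.cos (2 * Real.pi - (2 * x + a k + a l)) := by
          rw [Real.cos_two_pi_sub]
        have e2 : Real.cos (2 * y + a k + a l) = Real.cos (2 * Real.pi - (2 * y + a k + a l)) := by
          rw [Real.cos_two_pi_sub]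
        rw [e1, e2]
        apply Real.cos_le_cos_of_nonneg_of_le_pi
        · linarith
        · linarith [hx.1]
        · linarith
      linarith
    simp only [e]
    have m1 := mul_le_mul_of_nonneg_right
      (show (-(2 * Real.cos (x + a k)) + -(2 * Real.cos (x + a l))) ≤
        (-(2 * Real.cos (y + a k)) + -(2 * Real.cos (y + a l))) by linarith) hX3
    have m2 := mul_le_mul_of_nonneg_right hprod hX2
    linarith

/-- Products of families with nonnegative nondecreasing coefficients. -/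
lemma mul_block {p q : ℝ → ℝ[X]} {ε : ℝ}
    (hp : ∀ j, MonotoneOn (fun t : ℝ => (p t).coeff j) (Icc 0 ε))
    (hq : ∀ j, MonotoneOn (fun t : ℝ => (q t).coeff j) (Icc 0 ε))
    (hp0 : ∀ j, ∀ t ∈ Icc (0 : ℝ) ε, 0 ≤ (p t).coeff j)
    (hq0 : ∀ j, ∀ t ∈ Icc (0 : ℝ) ε, 0 ≤ (q t).coeff j) :
    (∀ j, MonotoneOn (fun t : ℝ => (p t * q t).coeff j) (Icc 0 ε)) ∧
    (∀ j, ∀ t ∈ Icc (0 : ℝ) ε, 0 ≤ (p t * q t).coeff j) := by
  constructor
  · intro j x hx y hy hxy
    simp only [coeff_mul]
    apply Finset.sum_le_sum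
    intro i _
    exact mul_le_mul (hp _ hx hy hxy) (hq _ hx hy hxy) (hq0 _ x hx) (hp0 _ y hy)
  · intro j t ht
    rw [coeff_mul]
    exact Finset.sum_nonneg (fun i _ => mul_nonneg (hp0 _ t ht) (hq0 _ t ht))

/-- Products over several blocks. -/
lemma prod_block {κ : Type*} [DecidableEq κ] (S : Finset κ) (p : κ → ℝ → ℝ[X])
    (h : ∀ i ∈ S, ∃ ε > (0 : ℝ), (∀ j, MonotoneOn (fun t : ℝ => (p i t).coeff j) (Icc 0 ε)) ∧
      (∀ j, ∀ t ∈ Icc (0 : ℝ) ε, 0 ≤ (p i t).coeff j)) :
    ∃ ε > (0 : ℝ), (∀ j, MonotoneOn (fun t : ℝ => (∏ i ∈ S, p i t).coeff j) (Icc 0 ε)) ∧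
      (∀ j, ∀ t ∈ Icc (0 : ℝ) ε, 0 ≤ (∏ i ∈ S, p i t).coeff j) := by
  induction S using Finset.induction_on with
  | empty =>
    refine ⟨1, one_pos, fun j => ?_, fun j t _ => ?_⟩
    · intro x _ y _ _
      simp
    · rw [Finset.prod_empty, coeff_one]
      split_ifs <;> norm_num
  | insert i S hi ih =>
    obtain ⟨ε1, h1, m1, n1⟩ := ih (fun i' hi' => h i' (Finset.mem_insert_of_mem hi'))
    obtain ⟨ε2, h2, m2, n2⟩ := h i (Finset.mem_insert_self i S)
    have s1 : Icc (0 : ℝ) (min ε1 ε2) ⊆ Icc 0 ε1 := Icc_subset_Icc le_rfl (min_le_left _ _)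
    have s2 : Icc (0 : ℝ) (min ε1 ε2) ⊆ Icc 0 ε2 := Icc_subset_Icc le_rfl (min_le_right _ _)
    have hm := mul_block (p := p i) (q := fun t => ∏ i ∈ S, p i t) (ε := min ε1 ε2)
      (fun j => (m2 j).mono s2) (fun j => (m1 j).mono s1)
      (fun j t ht => n2 j t (s2 ht)) (fun j t ht => n1 j t (s1 ht))
    refine ⟨min ε1 ε2, by positivity, ?_, ?_⟩
    · simp only [Finset.prod_insert hi]
      exact hm.1
    · simp only [Finset.prod_insert hi]
      exact hm.2

end Pool.Agent.MP_fe2d2a_anEC
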