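import Mathlib

/-!
Three pairs of zeros: the derivative of the middle coefficient is positive.
-/

set_option autoImplicit false

namespace Pool.Agent.MP_fe2d2a_anEC

/-- One nonnegative cosine `a`, two nonpositive cosines `-b`, `-c` with `b ≤ c`. -/
lemma patA {a b c sa sb sc : ℝ} (ha : 0 ≤ a) (hb : 0 ≤ b) (hbc : b ≤ c)
    (sa0 : 0 < sa) (sb0 : 0 < sb) (sc0 : 0 < sc)
    (ea : sa ^ 2 + a ^ 2 = 1) (eb : sb ^ 2 + b ^ 2 = 1) (ec : sc ^ 2 + c ^ 2 = 1)
    (h2 : a * (b + c) ≤ 3 / 4 + b * c) (h3 : a * (1 + 2 * (b * c)) ≤ b + c) :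
    0 < sa * (1 + 2 * (b * c)) + sb * (1 - 2 * (a * c)) + sc * (1 - 2 * (a * b)) := by
  have hc : 0 ≤ c := hb.trans hbc
  have hv : 0 ≤ b * c := mul_nonneg hb hc
  have hc1 : c ≤ 1 := by nlinarith
  have hb1 : b ≤ 1 := hbc.trans hc1
  have ha1 : a ≤ 1 := by nlinarith
  have hsa : 0 < sa * (1 + 2 * (b * c)) := by positivity
  have hab : a * b ≤ a * c := mul_le_mul_of_nonneg_left hbc ha
  have hab0 : 0 ≤ a * b := mul_nonneg ha hb
  -- the bound for `a`
  have key : a ^ 2 * (1 + 2 * (b * c)) ≤ 3 / 4 + b * c := by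
    have h4 := mul_le_mul_of_nonneg_left h3 ha
    nlinarith
  have sq1 : (1 + 2 * (b * c)) * (1 / 4 + b * c) ≤ (sa * (1 + 2 * (b * c))) ^ 2 := by
    have e : (sa * (1 + 2 * (b * c))) ^ 2 =
        (1 + 2 * (b * c)) * ((1 + 2 * (b * c)) - a ^ 2 * (1 + 2 * (b * c))) := by
      have : sa ^ 2 = 1 - a ^ 2 := by linarith
      rw [mul_pow, this]
      ring
    rw [e]
    apply mul_le_mul_of_nonneg_left _ (by positivity)
    linarith
  have hsb1 : sb ≤ 1 := by nlinarith
  have hsc1 : sc ≤ 1 := by nlinarith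
  rcases le_or_gt (2 * (a * c)) 1 with hac | hac
  · have h5 : 0 ≤ sb * (1 - 2 * (a * c)) := mul_nonneg sb0.le (by linarith)
    have h6 : 0 ≤ sc * (1 - 2 * (a * b)) := mul_nonneg sc0.le (by linarith)
    linarith
  rcases le_or_gt (2 * (a * b)) 1 with hab' | hab'
  · have ha2 : 1 / 2 < a := by nlinarith
    have hbv : b * c ≤ b := by nlinarith
    have hb2 : b ≤ 2 * (a * b) := by nlinarith
    have h7 : 2 * (a * c) - 1 ≤ 1 / 2 + b * c := by nlinarith
    have h8 : (1 / 2 + b * c) ^ 2 ≤ (sa * (1 + 2 * (b * c))) ^ 2 := by nlinarith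
    have h9 : 1 / 2 + b * c ≤ sa * (1 + 2 * (b * c)) :=
      (sq_le_sq₀ (by positivity) hsa.le).1 h8
    have h10 : 0 ≤ (2 * (a * c) - 1) * (1 - sb) := mul_nonneg (by linarith) (by linarith)
    have h11 : 0 ≤ sc * (1 - 2 * (a * b)) := mul_nonneg sc0.le (by linarith)
    rcases hab'.lt_or_eq with h12 | h12
    · have : 0 < sc * (1 - 2 * (a * b)) := mul_pos sc0 (by linarith)
      nlinarith
    · have hb0 : 0 < b := by
        rcases hb.lt_or_eq with h | h
        · exact h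
        · rw [← h] at h12
          norm_num at h12
      have : sb < 1 := by nlinarith
      have : 0 < (2 * (a * c) - 1) * (1 - sb) := mul_pos (by linarith) (by linarith)
      nlinarith
  · have hv0 : 0 < b * c := by
      have hb0 : 0 < b := by
        rcases hb.lt_or_eq with h | h
        · exact h
        · rw [← h] at hab'
          norm_num at hab'
      exact mul_pos hb0 (hb0.trans_le hbc)
    have hv1 : b * c ≤ 1 := by nlinarith
    have h8 : (2 * (b * c) - 1 / 2) ^ 2 < (sa * (1 + 2 * (b * c))) ^ 2 := by nlinarith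
    have h9 : 2 * (b * c) - 1 / 2 < sa * (1 + 2 * (b * c)) := by
      by_contra h
      push Not at h
      have := pow_le_pow_left₀ hsa.le h 2
      linarith
    have h10 : 0 ≤ (2 * (a * c) - 1) * (1 - sb) := mul_nonneg (by linarith) (by linarith)
    have h11 : 0 ≤ (2 * (a * b) - 1) * (1 - sc) := mul_nonneg (by linarith) (by linarith)
    nlinarith

/-- Two nonnegative cosines `a`, `b`, one nonpositive cosine `-c`. -/
lemma patB {a b c sa sb sc : ℝ} (ha : 0 ≤ a) (hb : 0 ≤ b)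
    (sa0 : 0 < sa) (sb0 : 0 < sb) (sc0 : 0 < sc)
    (ea : sa ^ 2 + a ^ 2 = 1) (eb : sb ^ 2 + b ^ 2 = 1)
    (h1 : a + b ≤ c) (h2 : c * (a + b) ≤ 3 / 4 + a * b) :
    0 < sa * (1 - 2 * (b * c)) + sb * (1 - 2 * (a * c)) + sc * (1 + 2 * (a * b)) := by
  have hab : 0 ≤ a * b := mul_nonneg ha hb
  have h3 : (a + b) ^ 2 ≤ 3 / 4 + a * b := by nlinarith
  have h4 : 1 / 2 + a * b ≤ sa * sb := by
    have : (1 / 2 + a * b) ^ 2 ≤ (sa * sb) ^ 2 := by
      have e1 : sa ^ 2 = 1 - a ^ 2 := by linarith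
      have e2 : sb ^ 2 = 1 - b ^ 2 := by linarith
      rw [mul_pow, e1, e2]
      nlinarith
    exact (sq_le_sq₀ (by positivity) (by positivity)).1 this
  have h5 : 0 < sc * (1 + 2 * (a * b)) := by positivity
  have hσ : 0 ≤ sa * b + sb * a := by positivity
  have e : (sa + sb) * (a + b) = (sa * b + sb * a) * (1 + a * b + sa * sb) := by
    have e1 : sa ^ 2 = 1 - a ^ 2 := by linarith
    have e2 : sb ^ 2 = 1 - b ^ 2 := by linarith
    have : (sa * b + sb * a) * (1 + a * b + sa * sb) =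
        (sa * b + sb * a) + sa * a * b ^ 2 + sa ^ 2 * sb * b + sb * a ^ 2 * b + sb ^ 2 * sa * a := by
      ring
    rw [this, e1, e2]
    ring
  have h6 : (sa * b + sb * a) * (2 * c * (a + b)) ≤ (sa + sb) * (a + b) := by
    rw [e]
    apply mul_le_mul_of_nonneg_left _ hσ
    linarith
  rcases (add_nonneg ha hb).lt_or_eq with h7 | h7
  · have h8 : (sa * b + sb * a) * (2 * c) ≤ sa + sb := by
      by_contra h
      push Not at h
      have := mul_lt_mul_of_pos_right h h7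
      linarith
    nlinarith
  · have ha0 : a = 0 := by linarith
    have hb0 : b = 0 := by linarith
    subst ha0
    subst hb0
    norm_num
    positivity

/-- The derivative of the middle coefficient. -/
lemma three_pos {x y z sx sy sz : ℝ} (sx0 : 0 < sx) (sy0 : 0 < sy) (sz0 : 0 < sz)
    (ex : sx ^ 2 + x ^ 2 = 1) (ey : sy ^ 2 + y ^ 2 = 1) (ez : sz ^ 2 + z ^ 2 = 1)
    (h1 : x + y + z ≤ 0) (h2 : 0 ≤ 3 + 4 * (x * y + x * z + y * z))
    (h3 : x + y + z + 2 * (x * y * z) ≤ 0) :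
    0 < sx * (1 + 2 * (y * z)) + sy * (1 + 2 * (x * z)) + sz * (1 + 2 * (x * y)) := by
  -- one nonnegative cosine
  have A : ∀ {x y z sx sy sz : ℝ}, 0 < sx → 0 < sy → 0 < sz →
      sx ^ 2 + x ^ 2 = 1 → sy ^ 2 + y ^ 2 = 1 → sz ^ 2 + z ^ 2 = 1 →
      0 ≤ 3 + 4 * (x * y + x * z + y * z) → x + y + z + 2 * (x * y * z) ≤ 0 →
      0 ≤ x → y ≤ 0 → z ≤ 0 →
      0 < sx * (1 + 2 * (y * z)) + sy * (1 + 2 * (x * z)) + sz * (1 + 2 * (x * y)) := by
    intro x y z sx sy sz sx0 sy0 sz0 ex ey ez h2 h3 hx hy hz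
    rcases le_total z y with h | h
    · have := patA (a := x) (b := -y) (c := -z) hx (by linarith) (by linarith) sx0 sy0 sz0 ex
        (by rw [neg_sq]; exact ey) (by rw [neg_sq]; exact ez) (by nlinarith) (by nlinarith)
      nlinarith
    · have := patA (a := x) (b := -z) (c := -y) hx (by linarith) (by linarith) sx0 sz0 sy0 ex
        (by rw [neg_sq]; exact ez) (by rw [neg_sq]; exact ey) (by nlinarith) (by nlinarith)
      nlinarith
  -- one nonpositive cosine
  have B : ∀ {x y z sx sy sz : ℝ}, 0 < sx → 0 < sy → 0 < sz →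
      sx ^ 2 + x ^ 2 = 1 → sy ^ 2 + y ^ 2 = 1 → x + y + z ≤ 0 →
      0 ≤ 3 + 4 * (x * y + x * z + y * z) → 0 ≤ x → 0 ≤ y →
      0 < sx * (1 + 2 * (y * z)) + sy * (1 + 2 * (x * z)) + sz * (1 + 2 * (x * y)) := by
    intro x y z sx sy sz sx0 sy0 sz0 ex ey h1 h2 hx hy
    have := patB (a := x) (b := y) (c := -z) hx hy sx0 sy0 sz0 ex ey (by linarith) (by nlinarith)
    nlinarith
  rcases le_total 0 x with hx | hx <;> rcases le_total 0 y with hy | hy <;>
    rcases le_total 0 z with hz | hz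
  · exact B sx0 sy0 sz0 ex ey h1 h2 hx hy
  · exact B sx0 sy0 sz0 ex ey h1 h2 hx hy
  · have := @B x z y sx sz sy sx0 sz0 sy0 ex ez (by linarith) (by nlinarith) hx hz
    nlinarith
  · exact A sx0 sy0 sz0 ex ey ez h2 h3 hx hy hz
  · have := @B y z x sy sz sx sy0 sz0 sx0 ey ez (by linarith) (by nlinarith) hy hz
    nlinarith
  · have := @A y x z sy sx sz sy0 sx0 sz0 ey ex ez (by nlinarith) (by nlinarith) hy hx hz
    nlinarith
  · have := @A z x y sz sx sy sz0 sx0 sy0 ez ex ey (by nlinarith) (by nlinarith) hz hx hy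
    nlinarith
  · have p1 : 0 ≤ y * z := mul_nonneg_of_nonpos_of_nonpos hy hz
    have p2 : 0 ≤ x * z := mul_nonneg_of_nonpos_of_nonpos hx hz
    have p3 : 0 ≤ x * y := mul_nonneg_of_nonpos_of_nonpos hx hy
    positivity

end Pool.Agent.MP_fe2d2a_anEC
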