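import Mathlib
import Pool.Agent.Lib.MP_fe2d2a_anEC.Blocks
import Pool.Agent.Lib.MP_fe2d2a_anEC.ThreeIneq
import Pool.Agent.Results.MP_fe2d2a_an.EvenPart

/-!
Three pairs of zeros.
-/

set_option autoImplicit false

open Finset Polynomial Set

namespace Pool.Agent.MP_fe2d2a_anEC

variable {ι : Type*} [DecidableEq ι]

/-- The product of three factors. -/
lemma three_expand (x y z : ℝ) (j : ℕ) :
    (((X : ℝ[X]) ^ 2 - C (2 * x) * X + 1) * ((X ^ 2 - C (2 * y) * X + 1) *
      (X ^ 2 - C (2 * z) * X + 1))).coeff j =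
      (X ^ 6 + 1 : ℝ[X]).coeff j + (-2 * (x + y + z)) * (X ^ 5 + X : ℝ[X]).coeff j +
        (3 + 4 * (x * y + x * z + y * z)) * (X ^ 4 + X ^ 2 : ℝ[X]).coeff j +
        (-4 * (x + y + z + 2 * (x * y * z))) * (X ^ 3 : ℝ[X]).coeff j := by
  rw [← coeff_C_mul, ← coeff_C_mul, ← coeff_C_mul, ← coeff_add, ← coeff_add, ← coeff_add]
  congr 1
  simp only [C_mul, C_add, C_neg, map_ofNat]
  ring

/-- A function with a positive derivative at `0` is monotone on a small interval. -/
lemma mono_of_deriv_pos {f f' : ℝ → ℝ} (hf : ∀ t, HasDerivAt f (f' t) t) (hc : Continuous f')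
    (h0 : 0 < f' 0) : ∃ ε > (0 : ℝ), MonotoneOn f (Icc 0 ε) := by
  have h1 : ∀ᶠ t in nhds (0 : ℝ), 0 < f' t := hc.continuousAt.eventually (lt_mem_nhds h0)
  obtain ⟨δ, hδ, h2⟩ := Metric.eventually_nhds_iff.1 h1
  refine ⟨δ / 2, by positivity, ?_⟩
  apply monotoneOn_of_deriv_nonneg (convex_Icc 0 (δ / 2))
  · exact fun t _ => (hf t).continuousAt.continuousWithinAt
  · exact fun t _ => (hf t).differentiableAt.differentiableWithinAt
  · intro t ht
    rw [interior_Icc] at ht
    rw [(hf t).deriv]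
    apply (h2 _).le
    rw [Real.dist_eq, sub_zero, abs_of_pos ht.1]
    linarith [ht.2]

/-- Three pairs of zeros. -/
lemma three_block (a : ι → ℝ) (A : Finset ι) (ha : ∀ k ∈ A, 0 < a k ∧ a k < Real.pi)
    (hpos : ∀ j, 0 ≤ (RP a A 0).coeff j) (hcard : A.card = 3) :
    ∃ ε > (0 : ℝ), ∀ j, MonotoneOn (fun t : ℝ => (RP a A t).coeff j) (Icc 0 ε) := by
  obtain ⟨k, l, m, hkl, hkm, hlm, hA⟩ := Finset.card_eq_three.1 hcard
  have hak := ha k (by rw [hA]; simp)
  have hal := ha l (by rw [hA]; simp)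
  have ham := ha m (by rw [hA]; simp)
  have e0 : ∀ t, RP a A t = (X ^ 2 - C (2 * Real.cos (t + a k)) * X + 1) *
      ((X ^ 2 - C (2 * Real.cos (t + a l)) * X + 1) *
        (X ^ 2 - C (2 * Real.cos (t + a m)) * X + 1)) := by
    intro t
    unfold RP
    rw [hA, Finset.prod_insert (by simp [hkl, hkm]), Finset.prod_pair hlm]
  have e : ∀ t j, (RP a A t).coeff j =
      (X ^ 6 + 1 : ℝ[X]).coeff j +
      (-2 * (Real.cos (t + a k) + Real.cos (t + a l) + Real.cos (t + a m))) *
        (X ^ 5 + X : ℝ[X]).coeff j +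
      (3 + 4 * (Real.cos (t + a k) * Real.cos (t + a l) + Real.cos (t + a k) * Real.cos (t + a m) +
        Real.cos (t + a l) * Real.cos (t + a m))) * (X ^ 4 + X ^ 2 : ℝ[X]).coeff j +
      (-4 * (Real.cos (t + a k) + Real.cos (t + a l) + Real.cos (t + a m) +
        2 * (Real.cos (t + a k) * Real.cos (t + a l) * Real.cos (t + a m)))) *
        (X ^ 3 : ℝ[X]).coeff j := by
    intro t j
    rw [e0, three_expand]
  have b6 : ∀ j : ℕ, 0 ≤ (X ^ 6 + 1 : ℝ[X]).coeff j ∧ 0 ≤ (X ^ 5 + X : ℝ[X]).coeff j ∧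
      0 ≤ (X ^ 4 + X ^ 2 : ℝ[X]).coeff j ∧ 0 ≤ (X ^ 3 : ℝ[X]).coeff j := by
    intro j
    simp only [coeff_add, coeff_X_pow, coeff_X, coeff_one]
    refine ⟨?_, ?_, ?_, ?_⟩ <;> split_ifs <;> norm_num
  have v1 : ∀ t, (RP a A t).coeff 1 =
      -2 * (Real.cos (t + a k) + Real.cos (t + a l) + Real.cos (t + a m)) := by
    intro t
    rw [e]
    simp [coeff_X_pow, coeff_X, coeff_one]
  have v2 : ∀ t, (RP a A t).coeff 2 =
      3 + 4 * (Real.cos (t + a k) * Real.cos (t + a l) + Real.cos (t + a k) * Real.cos (t + a m) +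
        Real.cos (t + a l) * Real.cos (t + a m)) := by
    intro t
    rw [e]
    simp [coeff_X_pow, coeff_X, coeff_one]
  have v3 : ∀ t, (RP a A t).coeff 3 =
      -4 * (Real.cos (t + a k) + Real.cos (t + a l) + Real.cos (t + a m) +
        2 * (Real.cos (t + a k) * Real.cos (t + a l) * Real.cos (t + a m))) := by
    intro t
    rw [e]
    simp [coeff_X_pow, coeff_X, coeff_one]
  -- the coefficients of index `1` and `2`
  obtain ⟨ε1, hε1, hm1⟩ : ∃ ε > (0 : ℝ), ∀ j ≤ 2,
      MonotoneOn (fun t : ℝ => (RP a A t).coeff j) (Icc 0 ε) := by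
    have e3 : ∀ t, RP a A t = ∏ i : Fin 3, ((X : ℝ[X]) ^ 2 -
        C (2 * Real.cos (t + ![a k, a l, a m] i)) * X + 1) := by
      intro t
      rw [e0, Fin.prod_univ_three, mul_assoc]
      rfl
    have h0 : ∀ x : ℝ, 0 < x → (RP a A 0).eval (-x) ≤ (RP a A 0).eval x := by
      intro x hx
      rw [eval_eq_sum_range, eval_eq_sum_range]
      apply Finset.sum_le_sum
      intro j _
      apply mul_le_mul_of_nonneg_left _ (hpos j)
      calc (-x) ^ j ≤ |(-x) ^ j| := le_abs_self _
        _ = x ^ j := by rw [abs_pow, abs_neg, abs_of_pos hx]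
    obtain ⟨ε, hε, h1, -, -⟩ := Pool.Agent.Results.MP_fe2d2a_an.EvenPart.result 3
      ![a k, a l, a m] (by
        intro i
        fin_cases i
        · exact hak
        · exact hal
        · exact ham) (by
        intro x hx
        have h2 := h0 x hx
        rw [e3] at h2
        simpa only [zero_add] using h2)
    refine ⟨ε, hε, fun j hj => ?_⟩
    simp only [e3]
    exact h1 j (Or.inl hj)
  -- the coefficient of index `3`
  obtain ⟨ε2, hε2, hm2⟩ : ∃ ε > (0 : ℝ),
      MonotoneOn (fun t : ℝ => (RP a A t).coeff 3) (Icc 0 ε) := by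
    simp only [v3]
    have hd : ∀ b t : ℝ, HasDerivAt (fun t => Real.cos (t + b)) (-Real.sin (t + b)) t := by
      intro b t
      have := (Real.hasDerivAt_cos (t + b)).comp_add_const t b
      exact this
    apply mono_of_deriv_pos (f' := fun t => -4 * (-Real.sin (t + a k) + -Real.sin (t + a l) +
      -Real.sin (t + a m) + 2 * ((-Real.sin (t + a k) * Real.cos (t + a l) +
        Real.cos (t + a k) * -Real.sin (t + a l)) * Real.cos (t + a m) +
        Real.cos (t + a k) * Real.cos (t + a l) * -Real.sin (t + a m))))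
    · intro t
      exact ((((hd (a k) t).add (hd (a l) t)).add (hd (a m) t)).add
        ((((hd (a k) t).mul (hd (a l) t)).mul (hd (a m) t)).const_mul 2)).const_mul (-4)
    · fun_prop
    · simp only [zero_add]
      have sk := Real.sin_pos_of_pos_of_lt_pi hak.1 hak.2
      have sl := Real.sin_pos_of_pos_of_lt_pi hal.1 hal.2
      have sm := Real.sin_pos_of_pos_of_lt_pi ham.1 ham.2
      have p1 := hpos 1
      have p2 := hpos 2
      have p3 := hpos 3
      rw [v1] at p1
      rw [v2] at p2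
      rw [v3] at p3
      simp only [zero_add] at p1 p2 p3
      have := three_pos sk sl sm (Real.sin_sq_add_cos_sq (a k)) (Real.sin_sq_add_cos_sq (a l))
        (Real.sin_sq_add_cos_sq (a m)) (by linarith) (by linarith) (by linarith)
      nlinarith
  refine ⟨min ε1 ε2, by positivity, fun j => ?_⟩
  have n1 := (hm1 1 (by norm_num)).mono (Icc_subset_Icc le_rfl (min_le_left ε1 ε2))
  have n2 := (hm1 2 (by norm_num)).mono (Icc_subset_Icc le_rfl (min_le_left ε1 ε2))
  have n3 := hm2.mono (Icc_subset_Icc le_rfl (min_le_right ε1 ε2))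
  intro x hx y hy hxy
  have q1 := n1 hx hy hxy
  have q2 := n2 hx hy hxy
  have q3 := n3 hx hy hxy
  simp only [v1] at q1
  simp only [v2] at q2
  simp only [v3] at q3
  simp only [e]
  obtain ⟨-, r1, r2, r3⟩ := b6 j
  have w1 := mul_le_mul_of_nonneg_right q1 r1
  have w2 := mul_le_mul_of_nonneg_right q2 r2
  have w3 := mul_le_mul_of_nonneg_right q3 r3
  linarith

end Pool.Agent.MP_fe2d2a_anEC
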